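import Pool.Agent.Helper54.PseudoSearch

/-!
Certificates for MP_1ed35b_co: for each possible degree distribution of the complement of a pseudo
16-regular graph on 20 vertices (except one), weights that rule it out.
-/

namespace Pool.Agent.Helper54.PseudoData

open Pool.Agent.Helper54.PseudoSearch

def certs6_0 : List Cert :=
  [([0, 6, 11, 1, 0, 1, 1, 0, 0, 0, 0, 0, 0, 0, 0, 0, 0, 0], [(3, 1, (-1))], [(3, (-2)), (1, 0)]),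
   ([0, 7, 9, 1, 2, 0, 1, 0, 0, 0, 0, 0, 0, 0, 0, 0, 0, 0], [(6, 4, (-130)), (6, 3, 72), (6, 2, (-38)), (6, 1, 8), (4, 3, 46), (4, 2, 18), (4, 1, (-10)), (3, 2, 5), (3, 1, 18), (2, 1, (-28))], [(6, (-18)), (4, 90), (3, (-18)), (2, (-18)), (1, (-8))]),
   ([0, 8, 6, 4, 1, 0, 1, 0, 0, 0, 0, 0, 0, 0, 0, 0, 0, 0], [(6, 4, (-48)), (6, 3, 12), (6, 2, (-54)), (6, 1, 6), (4, 3, 18), (4, 2, 8), (4, 1, (-2)), (3, 2, 4), (3, 1, 8), (2, 1, (-31))], [(6, (-6)), (4, 40), (3, 12), (2, (-8)), (1, (-6))]),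
   ([0, 9, 3, 7, 0, 0, 1, 0, 0, 0, 0, 0, 0, 0, 0, 0, 0, 0], [(1, 6, (-1))], [(1, (-1)), (6, 4)]),
   ([0, 9, 4, 5, 0, 2, 0, 0, 0, 0, 0, 0, 0, 0, 0, 0, 0, 0], [(1, 5, (-1))], [(1, (-1)), (5, 4)]),
   ([0, 9, 5, 2, 3, 1, 0, 0, 0, 0, 0, 0, 0, 0, 0, 0, 0, 0], [(5, 4, (-2)), (5, 3, 11), (5, 2, 9), (5, 1, 7), (4, 3, (-2)), (4, 2, (-4)), (4, 1, (-6)), (3, 2, 13), (3, 1, 26), (2, 1, 13)], [(5, 52), (4, (-20)), (3, 54), (2, 4), (1, (-20))]),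
   ([0, 10, 2, 5, 2, 1, 0, 0, 0, 0, 0, 0, 0, 0, 0, 0, 0, 0], [(5, 4, 3), (5, 3, (-2)), (5, 2, 1), (5, 1, (-4)), (4, 3, 3), (4, 2, 6), (4, 1, 9), (3, 2, (-5)), (3, 1, (-2)), (2, 1, 11)], [(5, (-7)), (4, 30), (3, (-7)), (2, 10), (1, (-7))]),
   ([0, 10, 3, 2, 5, 0, 0, 0, 0, 0, 0, 0, 0, 0, 0, 0, 0, 0], [(1, 3, (-1))], [(1, (-1)), (3, 2)])]

def certs6_1 : List Cert :=
  [([0, 11, 0, 5, 4, 0, 0, 0, 0, 0, 0, 0, 0, 0, 0, 0, 0, 0], [(4, 1, (-1))], [(4, (-3)), (1, 1)]),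
   ([1, 3, 14, 0, 0, 1, 1, 0, 0, 0, 0, 0, 0, 0, 0, 0, 0, 0], [(6, 5, 14), (6, 2, (-9)), (6, 1, (-2)), (6, 0, 5), (5, 2, (-2)), (5, 1, 5), (5, 0, (-4)), (2, 1, (-7)), (2, 0, (-14)), (1, 0, 5)], [(6, (-5)), (5, (-5)), (2, (-5)), (1, 2), (0, (-5))]),
   ([1, 4, 12, 0, 2, 0, 1, 0, 0, 0, 0, 0, 0, 0, 0, 0, 0, 0], [(6, 4, (-6)), (6, 2, (-2)), (6, 1, 2), (6, 0, 2), (4, 2, 2), (4, 1, (-1)), (4, 0, 4), (2, 1, (-2)), (2, 0, (-4)), (1, 0, 2)], [(6, (-2)), (4, 10), (2, (-2)), (1, (-2)), (0, (-2))]),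
   ([1, 5, 9, 3, 1, 0, 1, 0, 0, 0, 0, 0, 0, 0, 0, 0, 0, 0], [(6, 4, (-118)), (6, 3, (-54)), (6, 2, (-38)), (6, 1, 26), (6, 0, 42), (4, 3, 61), (4, 2, 42), (4, 1, 23), (4, 0, 4), (3, 2, 21), (3, 1, 3), (3, 0, (-15)), (2, 1, (-40)), (2, 0, (-80)), (1, 0, 42)], [(6, (-42)), (4, 210), (3, 63), (2, (-42)), (1, (-26)), (0, (-42))]),
   ([1, 6, 6, 6, 0, 0, 1, 0, 0, 0, 0, 0, 0, 0, 0, 0, 0, 0], [(1, 6, (-1))], [(1, (-1)), (6, 4)]),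
   ([2, 2, 12, 2, 1, 0, 1, 0, 0, 0, 0, 0, 0, 0, 0, 0, 0, 0], [(6, 4, (-44)), (6, 3, (-28)), (6, 2, (-12)), (6, 1, 20), (6, 0, 20), (4, 3, (-19)), (4, 2, 20), (4, 1, 29), (4, 0, (-22)), (3, 2, 10), (3, 1, (-9)), (3, 0, 1), (2, 1, (-16)), (2, 0, (-32)), (1, 0, 20)], [(6, (-20)), (4, 100), (3, 30), (2, (-20)), (1, (-20)), (0, (-20))]),
   ([2, 3, 9, 5, 0, 0, 1, 0, 0, 0, 0, 0, 0, 0, 0, 0, 0, 0], [(6, 3, (-60)), (6, 2, (-28)), (6, 1, 36), (6, 0, 36), (3, 2, 18), (3, 1, (-21)), (3, 0, (-3)), (2, 1, (-32)), (2, 0, (-64)), (1, 0, 36)], [(6, (-36)), (3, 54), (2, (-36)), (1, (-36)), (0, (-36))]),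
   ([3, 0, 12, 4, 0, 0, 1, 0, 0, 0, 0, 0, 0, 0, 0, 0, 0, 0], [(6, 3, (-12)), (6, 2, (-4)), (6, 0, 12), (3, 2, 6), (3, 0, 3), (2, 0, (-16))], [(6, (-12)), (3, 18), (2, (-12)), (0, (-12))])]

/-- Certificates for `s = 6`. -/
def certs6 : List Cert :=
  certs6_0 ++ certs6_1

def certs8_0 : List Cert :=
  [([0, 8, 9, 0, 1, 0, 1, 0, 1, 0, 0, 0, 0, 0, 0, 0, 0, 0], [(4, 1, (-1))], [(4, (-2)), (1, 0)]),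
   ([0, 9, 6, 3, 0, 0, 1, 0, 1, 0, 0, 0, 0, 0, 0, 0, 0, 0], [(8, 6, (-39)), (8, 3, 15), (8, 2, (-63)), (8, 1, 3), (6, 3, 11), (6, 2, 3), (6, 1, (-1)), (3, 2, 2), (3, 1, 4), (2, 1, (-33))], [(8, (-3)), (6, 33), (3, (-3)), (2, (-3)), (1, (-3))]),
   ([0, 9, 7, 1, 0, 2, 0, 0, 1, 0, 0, 0, 0, 0, 0, 0, 0, 0], [(1, 8, (-1))], [(1, (-1)), (8, 6)]),
   ([0, 9, 7, 1, 1, 0, 0, 2, 0, 0, 0, 0, 0, 0, 0, 0, 0, 0], [(4, 2, (-1))], [(4, (-1)), (2, 0)]),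
   ([0, 10, 4, 4, 0, 0, 0, 2, 0, 0, 0, 0, 0, 0, 0, 0, 0, 0], [(3, 2, (-1))], [(3, (-1)), (2, 0)]),
   ([0, 10, 5, 1, 2, 1, 0, 0, 1, 0, 0, 0, 0, 0, 0, 0, 0, 0], [(8, 5, (-13)), (8, 4, 4), (8, 3, (-10)), (8, 2, (-16)), (8, 1, 1), (5, 4, 2), (5, 3, 8), (5, 1, (-1)), (4, 2, 1), (4, 1, 2), (3, 2, 2), (3, 1, (-4)), (2, 1, (-9))], [(8, (-2)), (5, 8), (4, 4), (3, (-2)), (2, (-2)), (1, (-1))]),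
   ([0, 10, 6, 0, 1, 1, 1, 1, 0, 0, 0, 0, 0, 0, 0, 0, 0, 0], [(6, 1, (-1))], [(6, (-2)), (1, 0)]),
   ([0, 11, 2, 4, 1, 1, 0, 0, 1, 0, 0, 0, 0, 0, 0, 0, 0, 0], [(8, 5, (-141)), (8, 4, 69), (8, 3, (-141)), (8, 2, 9), (8, 1, 9), (5, 4, 9), (5, 3, (-50)), (5, 2, 18), (5, 1, (-30)), (4, 3, (-9)), (4, 2, 27), (4, 1, 39), (3, 2, (-9)), (3, 1, (-50))], [(8, (-9)), (5, (-9)), (4, 87), (3, (-9)), (2, (-9)), (1, (-9))])]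

def certs8_1 : List Cert :=
  [([0, 11, 3, 1, 4, 0, 0, 0, 1, 0, 0, 0, 0, 0, 0, 0, 0, 0], [(4, 1, (-1))], [(4, (-1)), (1, 0)]),
   ([0, 11, 3, 3, 0, 1, 1, 1, 0, 0, 0, 0, 0, 0, 0, 0, 0, 0], [(5, 1, (-1))], [(5, (-1)), (1, 0)]),
   ([0, 11, 4, 0, 3, 0, 1, 1, 0, 0, 0, 0, 0, 0, 0, 0, 0, 0], [(6, 1, (-1))], [(6, (-2)), (1, 0)]),
   ([0, 11, 4, 1, 0, 3, 0, 1, 0, 0, 0, 0, 0, 0, 0, 0, 0, 0], [(5, 1, (-1))], [(5, (-2)), (1, 0)]),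
   ([0, 11, 4, 1, 1, 0, 3, 0, 0, 0, 0, 0, 0, 0, 0, 0, 0, 0], [(4, 1, (-1))], [(4, (-2)), (1, 0)]),
   ([0, 12, 0, 4, 3, 0, 0, 0, 1, 0, 0, 0, 0, 0, 0, 0, 0, 0], [(4, 1, (-1))], [(4, (-2)), (1, 0)]),
   ([0, 12, 1, 3, 2, 0, 1, 1, 0, 0, 0, 0, 0, 0, 0, 0, 0, 0], [(4, 1, (-1))], [(4, (-1)), (1, 0)]),
   ([0, 12, 1, 4, 0, 0, 3, 0, 0, 0, 0, 0, 0, 0, 0, 0, 0, 0], [(2, 1, (-1))], [(2, (-1)), (1, 0)])]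

def certs8_2 : List Cert :=
  [([0, 12, 2, 1, 2, 2, 0, 1, 0, 0, 0, 0, 0, 0, 0, 0, 0, 0], [(3, 1, (-1))], [(3, (-1)), (1, 0)]),
   ([0, 12, 2, 2, 0, 2, 2, 0, 0, 0, 0, 0, 0, 0, 0, 0, 0, 0], [(5, 1, (-1))], [(5, (-3)), (1, 0)]),
   ([0, 13, 0, 1, 4, 1, 0, 1, 0, 0, 0, 0, 0, 0, 0, 0, 0, 0], [], [(5, (-1))]),
   ([0, 13, 0, 2, 2, 1, 2, 0, 0, 0, 0, 0, 0, 0, 0, 0, 0, 0], [(6, 5, (-14)), (6, 4, 7), (6, 3, (-7)), (5, 4, 16), (5, 3, 2), (5, 1, 4), (4, 3, (-9)), (4, 1, 3), (3, 1, 7)], [(6, (-7)), (5, 32), (4, (-7)), (3, 21), (1, (-7))]),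
   ([0, 13, 1, 0, 2, 3, 1, 0, 0, 0, 0, 0, 0, 0, 0, 0, 0, 0], [(6, 4, (-1))], [(6, (-1)), (4, 0)]),
   ([1, 6, 9, 2, 0, 0, 1, 0, 1, 0, 0, 0, 0, 0, 0, 0, 0, 0], [(8, 6, (-1)), (8, 3, 1), (8, 2, (-7)), (8, 1, 1), (8, 0, 1), (6, 3, 1), (6, 2, 1), (6, 1, 1), (6, 0, 1), (3, 2, (-1)), (3, 0, 1), (2, 1, (-4)), (2, 0, (-8)), (1, 0, 1)], [(8, (-1)), (6, 7), (3, (-1)), (2, (-1)), (1, (-1)), (0, (-1))]),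
   ([1, 6, 10, 0, 0, 2, 0, 0, 1, 0, 0, 0, 0, 0, 0, 0, 0, 0], [(8, 5, (-24)), (8, 2, (-4)), (8, 1, 6), (8, 0, 6), (5, 2, (-2)), (5, 1, (-6)), (5, 0, (-10)), (2, 1, (-5)), (2, 0, (-10)), (1, 0, 6)], [(8, (-6)), (5, (-6)), (2, (-6)), (1, (-6)), (0, (-6))]),
   ([1, 7, 8, 0, 2, 1, 0, 0, 1, 0, 0, 0, 0, 0, 0, 0, 0, 0], [(8, 5, (-43)), (8, 4, 24), (8, 2, (-68)), (8, 1, 1), (8, 0, 12), (5, 4, 12), (5, 2, (-34)), (5, 1, (-11)), (5, 0, 12), (4, 2, 6), (4, 1, 12), (4, 0, 12), (2, 1, (-40)), (2, 0, (-80)), (1, 0, 12)], [(8, (-12)), (5, (-12)), (4, 24), (2, (-12)), (1, (-1)), (0, (-12))])]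

def certs8_3 : List Cert :=
  [([1, 8, 5, 3, 1, 1, 0, 0, 1, 0, 0, 0, 0, 0, 0, 0, 0, 0], [(8, 5, (-368)), (8, 4, 48), (8, 3, (-164)), (8, 2, (-62)), (8, 1, 40), (8, 0, 40), (5, 4, 40), (5, 3, 28), (5, 2, 44), (5, 1, (-24)), (5, 0, (-92)), (4, 3, 32), (4, 2, 48), (4, 1, 64), (4, 0, 40), (3, 2, (-4)), (3, 1, (-188)), (3, 0, (-12)), (2, 1, (-51)), (2, 0, (-102)), (1, 0, 40)], [(8, (-40)), (5, 248), (4, 208), (3, (-40)), (2, (-40)), (1, (-40)), (0, (-40))]),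
   ([1, 8, 6, 0, 4, 0, 0, 0, 1, 0, 0, 0, 0, 0, 0, 0, 0, 0], [(1, 8, (-1))], [(1, (-1)), (8, 6)]),
   ([1, 9, 2, 6, 0, 1, 0, 0, 1, 0, 0, 0, 0, 0, 0, 0, 0, 0], [(1, 8, (-1))], [(1, (-1)), (8, 6)]),
   ([1, 9, 3, 3, 3, 0, 0, 0, 1, 0, 0, 0, 0, 0, 0, 0, 0, 0], [(1, 8, (-1))], [(1, (-1)), (8, 6)]),
   ([1, 10, 0, 6, 2, 0, 0, 0, 1, 0, 0, 0, 0, 0, 0, 0, 0, 0], [(1, 8, (-1))], [(1, (-1)), (8, 6)]),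
   ([2, 3, 12, 1, 0, 0, 1, 0, 1, 0, 0, 0, 0, 0, 0, 0, 0, 0], [(8, 6, (-4)), (8, 3, 16), (8, 2, (-18)), (8, 1, 4), (8, 0, 4), (6, 3, 4), (6, 2, 4), (6, 1, 4), (6, 0, 4), (3, 2, (-2)), (3, 1, 4), (3, 0, 4), (2, 1, (-11)), (2, 0, (-22)), (1, 0, 4)], [(8, (-4)), (6, 28), (3, (-4)), (2, (-4)), (1, (-4)), (0, (-4))]),
   ([2, 5, 8, 2, 1, 1, 0, 0, 1, 0, 0, 0, 0, 0, 0, 0, 0, 0], [(8, 5, 4), (8, 4, 10), (8, 3, (-112)), (8, 2, (-112)), (8, 1, 14), (8, 0, 14), (5, 4, 4), (5, 3, 6), (5, 2, 8), (5, 1, 10), (5, 0, 12), (4, 2, 2), (4, 1, 4), (4, 0, 6), (3, 2, 6), (3, 1, (-56)), (3, 0, (-50)), (2, 1, (-63)), (2, 0, (-126)), (1, 0, 14)], [(8, (-14)), (5, 46), (4, 6), (3, 12), (2, (-14)), (1, (-14)), (0, (-14))]),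
   ([2, 6, 5, 5, 0, 1, 0, 0, 1, 0, 0, 0, 0, 0, 0, 0, 0, 0], [(8, 5, (-95)), (8, 3, (-95)), (8, 2, 15), (8, 1, 5), (8, 0, 5), (5, 3, (-10)), (5, 2, 10), (5, 1, (-11)), (5, 0, (-32)), (3, 2, (-5)), (3, 1, (-45)), (3, 0, (-50)), (2, 1, 5), (2, 0, 5), (1, 0, 5)], [(8, (-5)), (5, 40), (3, (-5)), (2, (-5)), (1, (-5)), (0, (-5))])]

def certs8_4 : List Cert :=
  [([2, 6, 6, 2, 3, 0, 0, 0, 1, 0, 0, 0, 0, 0, 0, 0, 0, 0], [(8, 4, (-4)), (8, 3, (-5)), (8, 2, (-2)), (8, 1, 1), (8, 0, 1), (4, 3, (-1)), (4, 2, (-2)), (4, 1, (-3)), (4, 0, (-4)), (3, 2, (-1)), (3, 1, (-2)), (3, 0, (-3)), (2, 1, 1), (2, 0, 1), (1, 0, 1)], [(8, (-1)), (4, (-8)), (3, (-1)), (2, 4), (1, (-1)), (0, (-1))]),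
   ([2, 7, 3, 5, 2, 0, 0, 0, 1, 0, 0, 0, 0, 0, 0, 0, 0, 0], [(1, 8, (-1))], [(1, (-1)), (8, 6)]),
   ([2, 8, 0, 8, 1, 0, 0, 0, 1, 0, 0, 0, 0, 0, 0, 0, 0, 0], [(1, 8, (-1))], [(1, (-1)), (8, 6)]),
   ([3, 0, 15, 0, 0, 0, 1, 0, 1, 0, 0, 0, 0, 0, 0, 0, 0, 0], [(8, 6, (-5)), (8, 2, (-3)), (8, 0, 5), (6, 2, 5), (6, 0, 5), (2, 0, (-8))], [(8, (-5)), (6, 35), (2, (-5)), (0, (-5))]),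
   ([3, 2, 11, 1, 1, 1, 0, 0, 1, 0, 0, 0, 0, 0, 0, 0, 0, 0], [(8, 5, 15), (8, 4, (-7)), (8, 3, 5), (8, 2, (-43)), (8, 1, 5), (8, 0, 5), (5, 4, (-5)), (5, 3, 20), (5, 1, (-2)), (5, 0, 5), (4, 3, (-5)), (4, 2, (-19)), (4, 1, 7), (4, 0, (-7)), (3, 2, 5), (3, 1, (-10)), (3, 0, 5), (2, 1, (-24)), (2, 0, (-48)), (1, 0, 5)], [(8, (-5)), (5, 20), (4, (-5)), (3, (-5)), (2, (-5)), (1, (-5)), (0, (-5))]),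
   ([3, 3, 8, 4, 0, 1, 0, 0, 1, 0, 0, 0, 0, 0, 0, 0, 0, 0], [(8, 5, 27), (8, 3, (-15)), (8, 2, (-15)), (8, 1, 3), (8, 0, 3), (5, 3, (-6)), (5, 2, 6), (5, 1, 5), (5, 0, 17), (3, 2, (-3)), (3, 1, (-6)), (3, 0, (-9)), (2, 1, (-9)), (2, 0, (-18)), (1, 0, 3)], [(8, (-3)), (5, 24), (3, (-3)), (2, (-3)), (1, (-3)), (0, (-3))]),
   ([3, 3, 9, 1, 3, 0, 0, 0, 1, 0, 0, 0, 0, 0, 0, 0, 0, 0], [(3, 1, (-1))], [(3, (-1)), (1, 0)]),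
   ([3, 4, 6, 4, 2, 0, 0, 0, 1, 0, 0, 0, 0, 0, 0, 0, 0, 0], [(8, 4, (-168)), (8, 3, (-168)), (8, 2, 24), (8, 1, 8), (8, 0, 8), (4, 3, 2), (4, 2, 4), (4, 1, (-38)), (4, 0, (-80)), (3, 2, 2), (3, 1, (-85)), (3, 0, (-83)), (2, 1, 8), (2, 0, 8), (1, 0, 8)], [(8, (-8)), (4, 16), (3, 2), (2, (-8)), (1, (-8)), (0, (-8))])]

def certs8_5 : List Cert :=
  [([3, 5, 3, 7, 1, 0, 0, 0, 1, 0, 0, 0, 0, 0, 0, 0, 0, 0], [(8, 4, 21), (8, 3, (-35)), (8, 2, 3), (8, 1, 1), (8, 0, 1), (4, 3, (-1)), (4, 2, 3), (4, 1, 7), (4, 0, 11), (3, 2, (-1)), (3, 1, (-17)), (3, 0, (-18)), (2, 1, 1), (2, 0, 1), (1, 0, 1)], [(8, (-1)), (4, 7), (3, (-1)), (2, (-1)), (1, (-1)), (0, (-1))]),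
   ([3, 6, 0, 10, 0, 0, 0, 0, 1, 0, 0, 0, 0, 0, 0, 0, 0, 0], [(3, 8, (-1))], [(3, (-1)), (8, 5)]),
   ([4, 0, 11, 3, 0, 1, 0, 0, 1, 0, 0, 0, 0, 0, 0, 0, 0, 0], [(8, 5, (-24)), (8, 3, 1), (8, 2, (-1)), (8, 0, 1), (5, 3, 4), (5, 0, (-8)), (3, 2, 1), (2, 0, (-2))], [(8, (-1)), (5, 4), (3, (-1)), (2, (-1)), (0, (-1))]),
   ([4, 0, 12, 0, 3, 0, 0, 0, 1, 0, 0, 0, 0, 0, 0, 0, 0, 0], [(8, 4, 2), (8, 2, (-8)), (8, 0, 2), (4, 2, 1), (4, 0, 2), (2, 0, (-10))], [(8, (-2)), (4, 4), (2, (-2)), (0, (-2))]),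
   ([4, 1, 9, 3, 2, 0, 0, 0, 1, 0, 0, 0, 0, 0, 0, 0, 0, 0], [], [(1, (-1))]),
   ([4, 2, 6, 6, 1, 0, 0, 0, 1, 0, 0, 0, 0, 0, 0, 0, 0, 0], [(8, 4, (-42)), (8, 3, (-42)), (8, 2, 6), (8, 1, 2), (8, 0, 2), (4, 3, (-2)), (4, 2, 6), (4, 1, (-7)), (4, 0, (-20)), (3, 2, (-2)), (3, 1, (-20)), (3, 0, (-22)), (2, 1, 2), (2, 0, 2), (1, 0, 2)], [(8, (-2)), (4, 14), (3, (-2)), (2, (-2)), (1, (-2)), (0, (-2))]),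
   ([4, 3, 3, 9, 0, 0, 0, 0, 1, 0, 0, 0, 0, 0, 0, 0, 0, 0], [(0, 8, (-1))], [(0, (-1)), (8, 3)]),
   ([5, 0, 6, 8, 0, 0, 0, 0, 1, 0, 0, 0, 0, 0, 0, 0, 0, 0], [(2, 8, (-1))], [(2, (-1)), (8, 5)])]

/-- Certificates for `s = 8`. -/
def certs8 : List Cert :=
  certs8_0 ++ certs8_1 ++ certs8_2 ++ certs8_3 ++ certs8_4 ++ certs8_5

def certs10_0 : List Cert :=
  [([0, 7, 11, 0, 0, 0, 0, 1, 0, 0, 1, 0, 0, 0, 0, 0, 0, 0], [(7, 1, (-1))], [(7, (-7)), (1, 0)]),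
   ([0, 9, 7, 2, 0, 0, 0, 0, 1, 1, 0, 0, 0, 0, 0, 0, 0, 0], [(9, 8, 67), (9, 3, 2), (9, 2, (-11)), (9, 1, (-24)), (8, 3, (-145)), (8, 2, (-158)), (8, 1, (-171)), (3, 2, 147), (3, 1, 294), (2, 1, 147)], [(9, (-123)), (8, (-1422)), (3, 733), (2, 158), (1, (-123))]),
   ([0, 10, 5, 2, 1, 0, 1, 0, 0, 0, 1, 0, 0, 0, 0, 0, 0, 0], [(1, 10, (-1))], [(1, (-1)), (10, 8)]),
   ([0, 10, 6, 0, 1, 2, 0, 0, 0, 0, 1, 0, 0, 0, 0, 0, 0, 0], [(4, 1, (-1))], [(4, (-2)), (1, 0)]),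
   ([0, 11, 2, 5, 0, 0, 1, 0, 0, 0, 1, 0, 0, 0, 0, 0, 0, 0], [(6, 1, (-1))], [(6, (-2)), (1, 0)]),
   ([0, 11, 3, 3, 0, 2, 0, 0, 0, 0, 1, 0, 0, 0, 0, 0, 0, 0], [(1, 10, (-1))], [(1, (-1)), (10, 8)]),
   ([0, 11, 4, 0, 3, 1, 0, 0, 0, 0, 1, 0, 0, 0, 0, 0, 0, 0], [(5, 1, (-1))], [(5, (-1)), (1, 0)]),
   ([0, 11, 4, 2, 0, 1, 0, 1, 0, 1, 0, 0, 0, 0, 0, 0, 0, 0], [(7, 1, (-1))], [(7, (-3)), (1, 0)])]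

def certs10_1 : List Cert :=
  [([0, 11, 5, 0, 1, 0, 2, 0, 0, 1, 0, 0, 0, 0, 0, 0, 0, 0], [(6, 1, (-1))], [(6, (-2)), (1, 0)]),
   ([0, 12, 1, 3, 2, 1, 0, 0, 0, 0, 1, 0, 0, 0, 0, 0, 0, 0], [(5, 1, (-1))], [(5, (-2)), (1, 0)]),
   ([0, 12, 2, 0, 5, 0, 0, 0, 0, 0, 1, 0, 0, 0, 0, 0, 0, 0], [(4, 1, (-1))], [(4, (-2)), (1, 0)]),
   ([0, 12, 2, 2, 2, 0, 0, 1, 0, 1, 0, 0, 0, 0, 0, 0, 0, 0], [(9, 7, 157), (9, 4, (-13)), (9, 3, (-568)), (9, 2, 24), (9, 1, (-21)), (7, 4, 96), (7, 3, (-349)), (7, 2, 133), (4, 3, (-65)), (4, 2, (-109)), (4, 1, 24), (3, 2, (-154)), (3, 1, (-219)), (2, 1, 45)], [(9, (-24)), (7, (-24)), (4, (-24)), (3, (-24)), (2, 21), (1, (-24))]),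
   ([0, 12, 2, 3, 0, 0, 2, 0, 0, 1, 0, 0, 0, 0, 0, 0, 0, 0], [(6, 1, (-1))], [(6, (-3)), (1, 0)]),
   ([0, 12, 2, 3, 0, 1, 0, 0, 2, 0, 0, 0, 0, 0, 0, 0, 0, 0], [(5, 1, (-1))], [(5, (-3)), (1, 0)]),
   ([0, 12, 3, 1, 0, 2, 1, 0, 0, 1, 0, 0, 0, 0, 0, 0, 0, 0], [(3, 1, (-1))], [(3, (-1)), (1, 0)]),
   ([0, 13, 0, 3, 2, 0, 0, 0, 2, 0, 0, 0, 0, 0, 0, 0, 0, 0], [(4, 3, (-1))], [(4, (-1)), (3, 0)])]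

def certs10_2 : List Cert :=
  [([0, 13, 1, 1, 2, 1, 1, 0, 0, 1, 0, 0, 0, 0, 0, 0, 0, 0], [(4, 1, (-1))], [(4, (-2)), (1, 0)]),
   ([0, 13, 1, 2, 1, 0, 1, 1, 1, 0, 0, 0, 0, 0, 0, 0, 0, 0], [(6, 1, (-1))], [(6, (-4)), (1, 0)]),
   ([0, 13, 2, 0, 1, 2, 0, 1, 1, 0, 0, 0, 0, 0, 0, 0, 0, 0], [(8, 1, (-1))], [(8, (-5)), (1, 0)]),
   ([0, 13, 2, 0, 2, 0, 0, 3, 0, 0, 0, 0, 0, 0, 0, 0, 0, 0], [(7, 4, (-1))], [(7, (-1)), (4, 1)]),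
   ([0, 14, 0, 0, 3, 1, 0, 1, 1, 0, 0, 0, 0, 0, 0, 0, 0, 0], [(8, 4, (-1))], [(8, (-1)), (4, 0)]),
   ([0, 14, 0, 1, 1, 1, 2, 0, 1, 0, 0, 0, 0, 0, 0, 0, 0, 0], [(4, 1, (-1))], [(4, (-3)), (1, 0)]),
   ([0, 14, 1, 0, 0, 1, 3, 1, 0, 0, 0, 0, 0, 0, 0, 0, 0, 0], [], [(5, (-1))]),
   ([1, 7, 8, 1, 1, 0, 1, 0, 0, 0, 1, 0, 0, 0, 0, 0, 0, 0], [(3, 1, (-1))], [(3, (-1)), (1, 0)])]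

def certs10_3 : List Cert :=
  [([1, 8, 5, 4, 0, 0, 1, 0, 0, 0, 1, 0, 0, 0, 0, 0, 0, 0], [(10, 6, (-31)), (10, 3, (-10)), (10, 2, 3), (10, 1, 1), (10, 0, 1), (6, 3, 3), (6, 2, (-1)), (6, 1, (-5)), (6, 0, (-9)), (3, 2, 1), (3, 1, (-13)), (3, 0, 1), (2, 1, 1), (2, 0, 1), (1, 0, 1)], [(10, (-1)), (6, 1), (3, (-1)), (2, (-1)), (1, (-1)), (0, (-1))]),
   ([1, 8, 6, 2, 0, 2, 0, 0, 0, 0, 1, 0, 0, 0, 0, 0, 0, 0], [(10, 5, (-138)), (10, 3, (-66)), (10, 2, 18), (10, 1, 6), (10, 0, 6), (5, 3, 6), (5, 2, 3), (5, 1, (-41)), (5, 0, (-3)), (3, 2, 6), (3, 1, (-84)), (3, 0, 6), (2, 1, 6), (2, 0, 6), (1, 0, 6)], [(10, (-6)), (5, 15), (3, (-6)), (2, (-6)), (1, (-6)), (0, (-6))]),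
   ([1, 9, 4, 2, 2, 1, 0, 0, 0, 0, 1, 0, 0, 0, 0, 0, 0, 0], [(1, 10, (-1))], [(1, (-1)), (10, 8)]),
   ([1, 10, 1, 5, 1, 1, 0, 0, 0, 0, 1, 0, 0, 0, 0, 0, 0, 0], [(1, 10, (-1))], [(1, (-1)), (10, 8)]),
   ([1, 10, 2, 2, 4, 0, 0, 0, 0, 0, 1, 0, 0, 0, 0, 0, 0, 0], [(1, 10, (-1))], [(1, (-1)), (10, 8)]),
   ([2, 4, 11, 0, 1, 0, 1, 0, 0, 0, 1, 0, 0, 0, 0, 0, 0, 0], [(10, 4, 6), (10, 2, (-16)), (10, 1, 6), (10, 0, 6), (6, 4, 30), (6, 1, 6), (6, 0, 6), (4, 2, 6), (4, 0, (-6)), (2, 1, (-11)), (2, 0, (-22)), (1, 0, 6)], [(10, (-6)), (6, 30), (4, (-6)), (2, (-6)), (1, (-6)), (0, (-6))]),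
   ([2, 5, 8, 3, 0, 0, 1, 0, 0, 0, 1, 0, 0, 0, 0, 0, 0, 0], [(10, 6, (-23)), (10, 3, (-27)), (10, 2, 3), (10, 1, 1), (10, 0, 1), (6, 3, 3), (6, 2, (-1)), (6, 1, (-11)), (6, 0, 1), (3, 2, 1), (3, 1, (-15)), (3, 0, (-14)), (2, 1, 1), (2, 0, 1), (1, 0, 1)], [(10, (-1)), (6, 1), (3, (-1)), (2, (-1)), (1, (-1)), (0, (-1))]),
   ([2, 5, 9, 1, 0, 2, 0, 0, 0, 0, 1, 0, 0, 0, 0, 0, 0, 0], [(3, 1, (-1))], [(3, (-1)), (1, 0)])]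

def certs10_4 : List Cert :=
  [([2, 6, 7, 1, 2, 1, 0, 0, 0, 0, 1, 0, 0, 0, 0, 0, 0, 0], [(10, 5, (-396)), (10, 4, (-248)), (10, 3, (-136)), (10, 2, 12), (10, 1, 4), (10, 0, 152), (5, 4, 68), (5, 3, 8), (5, 2, (-20)), (5, 1, (-80)), (5, 0, (-140)), (4, 3, 4), (4, 2, 20), (4, 1, (-63)), (4, 0, (-146)), (3, 2, 4), (3, 1, (-148)), (3, 0, 4), (2, 1, 4), (2, 0, 4), (1, 0, 4)], [(10, (-4)), (5, (-4)), (4, (-4)), (3, (-4)), (2, (-4)), (1, (-4)), (0, (-4))]),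
   ([2, 7, 4, 4, 1, 1, 0, 0, 0, 0, 1, 0, 0, 0, 0, 0, 0, 0], [(10, 5, (-305)), (10, 4, 35), (10, 3, (-305)), (10, 2, 45), (10, 1, 15), (10, 0, 15), (5, 4, 35), (5, 3, 10), (5, 2, (-15)), (5, 1, (-64)), (5, 0, (-113)), (4, 3, 5), (4, 2, 25), (4, 1, 20), (4, 0, 15), (3, 2, 5), (3, 1, (-160)), (3, 0, (-155)), (2, 1, 15), (2, 0, 15), (1, 0, 15)], [(10, (-15)), (5, (-15)), (4, 45), (3, (-5)), (2, (-15)), (1, (-15)), (0, (-15))]),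
   ([2, 7, 5, 1, 4, 0, 0, 0, 0, 0, 1, 0, 0, 0, 0, 0, 0, 0], [(3, 1, (-1))], [(3, (-1)), (1, 0)]),
   ([2, 8, 1, 7, 0, 1, 0, 0, 0, 0, 1, 0, 0, 0, 0, 0, 0, 0], [(2, 1, (-1))], [(2, (-2)), (1, 0)]),
   ([2, 8, 2, 4, 3, 0, 0, 0, 0, 0, 1, 0, 0, 0, 0, 0, 0, 0], [(10, 4, (-26)), (10, 3, (-35)), (10, 2, 18), (10, 1, 6), (10, 0, 6), (4, 3, (-5)), (4, 2, 2), (4, 1, (-8)), (4, 0, (-18)), (3, 2, (-5)), (3, 1, (-10)), (3, 0, (-15)), (2, 1, 6), (2, 0, 6), (1, 0, 6)], [(10, (-6)), (4, (-6)), (3, 5), (2, (-6)), (1, (-6)), (0, (-6))]),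
   ([3, 2, 11, 2, 0, 0, 1, 0, 0, 0, 1, 0, 0, 0, 0, 0, 0, 0], [(10, 6, 21), (10, 3, 3), (10, 2, (-15)), (10, 1, 3), (10, 0, 3), (6, 3, 11), (6, 2, (-5)), (6, 1, 3), (6, 0, 3), (3, 2, 4), (3, 1, (-4)), (2, 1, (-9)), (2, 0, (-18)), (1, 0, 3)], [(10, (-3)), (6, (-3)), (3, (-3)), (2, (-3)), (1, (-3)), (0, (-3))]),
   ([3, 2, 12, 0, 0, 2, 0, 0, 0, 0, 1, 0, 0, 0, 0, 0, 0, 0], [(10, 5, 12), (10, 2, (-18)), (10, 1, 8), (10, 0, 8), (5, 2, 4), (5, 1, 8), (5, 0, 8), (2, 1, (-13)), (2, 0, (-26)), (1, 0, 8)], [(10, (-8)), (5, 20), (2, (-8)), (1, (-8)), (0, (-8))]),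
   ([3, 3, 10, 0, 2, 1, 0, 0, 0, 0, 1, 0, 0, 0, 0, 0, 0, 0], [(5, 1, (-1))], [(5, (-1)), (1, 0)])]

def certs10_5 : List Cert :=
  [([3, 4, 7, 3, 1, 1, 0, 0, 0, 0, 1, 0, 0, 0, 0, 0, 0, 0], [(10, 5, (-166)), (10, 4, (-50)), (10, 3, (-50)), (10, 2, 6), (10, 1, 2), (10, 0, 2), (5, 4, 34), (5, 3, 4), (5, 2, (-10)), (5, 1, (-40)), (5, 0, (-54)), (4, 3, 2), (4, 2, 10), (4, 1, (-13)), (4, 0, (-36)), (3, 2, 2), (3, 1, (-28)), (3, 0, (-26)), (2, 1, 2), (2, 0, 2), (1, 0, 2)], [(10, (-2)), (5, (-2)), (4, (-2)), (3, (-2)), (2, (-2)), (1, (-2)), (0, (-2))]),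
   ([3, 4, 8, 0, 4, 0, 0, 0, 0, 0, 1, 0, 0, 0, 0, 0, 0, 0], [(10, 4, (-162)), (10, 2, 18), (10, 1, 6), (10, 0, 6), (4, 2, 2), (4, 1, (-39)), (4, 0, (-80)), (2, 1, 6), (2, 0, 6), (1, 0, 6)], [(10, (-6)), (4, 6), (2, (-6)), (1, (-6)), (0, (-6))]),
   ([3, 5, 4, 6, 0, 1, 0, 0, 0, 0, 1, 0, 0, 0, 0, 0, 0, 0], [(10, 5, (-97)), (10, 3, (-17)), (10, 2, 9), (10, 1, 3), (10, 0, 3), (5, 3, 6), (5, 2, (-7)), (5, 1, (-20)), (5, 0, (-33)), (3, 2, 3), (3, 1, (-13)), (3, 0, (-10)), (2, 1, 3), (2, 0, 3), (1, 0, 3)], [(10, (-3)), (5, (-3)), (3, (-3)), (2, (-3)), (1, (-3)), (0, (-3))]),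
   ([3, 5, 5, 3, 3, 0, 0, 0, 0, 0, 1, 0, 0, 0, 0, 0, 0, 0], [(10, 4, (-120)), (10, 3, (-120)), (10, 2, 36), (10, 1, 12), (10, 0, 12), (4, 3, (-5)), (4, 2, 4), (4, 1, (-27)), (4, 0, (-58)), (3, 2, (-22)), (3, 1, (-44)), (3, 0, (-66)), (2, 1, 12), (2, 0, 12), (1, 0, 12)], [(10, (-12)), (4, 12), (3, (-12)), (2, (-12)), (1, (-12)), (0, (-12))]),
   ([3, 6, 2, 6, 2, 0, 0, 0, 0, 0, 1, 0, 0, 0, 0, 0, 0, 0], [(10, 4, 4), (10, 3, (-21)), (10, 2, 3), (10, 1, 1), (10, 0, 1), (4, 3, 1), (4, 2, (-5)), (4, 1, (-4)), (4, 0, 1), (3, 2, 1), (3, 1, (-12)), (3, 0, (-11)), (2, 1, 1), (2, 0, 1), (1, 0, 1)], [(10, (-1)), (4, (-1)), (3, (-1)), (2, (-1)), (1, (-1)), (0, (-1))]),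
   ([4, 1, 10, 2, 1, 1, 0, 0, 0, 0, 1, 0, 0, 0, 0, 0, 0, 0], [], [(1, (-1))]),
   ([4, 2, 7, 5, 0, 1, 0, 0, 0, 0, 1, 0, 0, 0, 0, 0, 0, 0], [(10, 5, (-50)), (10, 3, (-24)), (10, 2, 6), (10, 1, 2), (10, 0, 2), (5, 3, (-60)), (5, 2, (-29)), (5, 1, 2), (5, 0, 2), (3, 2, (-62)), (3, 1, 2), (3, 0, (-13)), (2, 1, 2), (2, 0, 2), (1, 0, 2)], [(10, (-2)), (5, (-2)), (3, (-2)), (2, (-2)), (1, (-2)), (0, (-2))]),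
   ([4, 2, 8, 2, 3, 0, 0, 0, 0, 0, 1, 0, 0, 0, 0, 0, 0, 0], [(10, 4, (-162)), (10, 3, (-162)), (10, 2, 18), (10, 1, 6), (10, 0, 6), (4, 3, 1), (4, 2, 2), (4, 1, (-39)), (4, 0, (-80)), (3, 2, (-81)), (3, 1, (-3)), (3, 0, (-84)), (2, 1, 6), (2, 0, 6), (1, 0, 6)], [(10, (-6)), (4, 6), (3, (-6)), (2, (-6)), (1, (-6)), (0, (-6))])]

def certs10_6 : List Cert :=
  [([4, 3, 5, 5, 2, 0, 0, 0, 0, 0, 1, 0, 0, 0, 0, 0, 0, 0], [(10, 4, (-87)), (10, 3, (-19)), (10, 2, 9), (10, 1, 3), (10, 0, 3), (4, 3, 3), (4, 2, (-15)), (4, 1, (-33)), (4, 0, (-30)), (3, 2, 3), (3, 1, (-14)), (3, 0, (-11)), (2, 1, 3), (2, 0, 3), (1, 0, 3)], [(10, (-3)), (4, (-3)), (3, (-3)), (2, (-3)), (1, (-3)), (0, (-3))]),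
   ([4, 4, 2, 8, 1, 0, 0, 0, 0, 0, 1, 0, 0, 0, 0, 0, 0, 0], [(10, 4, (-7)), (10, 3, (-3)), (10, 2, 3), (10, 1, 1), (10, 0, 1), (4, 3, 1), (4, 2, (-5)), (4, 1, (-11)), (4, 0, 1), (3, 2, 1), (3, 1, (-3)), (3, 0, (-2)), (2, 1, 1), (2, 0, 1), (1, 0, 1)], [(10, (-1)), (4, (-1)), (3, (-1)), (2, (-1)), (1, (-1)), (0, (-1))]),
   ([5, 0, 8, 4, 2, 0, 0, 0, 0, 0, 1, 0, 0, 0, 0, 0, 0, 0], [(2, 0, (-1))], [(2, (-1)), (0, 0)]),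
   ([5, 1, 5, 7, 1, 0, 0, 0, 0, 0, 1, 0, 0, 0, 0, 0, 0, 0], [], [(1, (-1))]),
   ([5, 2, 2, 10, 0, 0, 0, 0, 0, 0, 1, 0, 0, 0, 0, 0, 0, 0], [(3, 10, (-1))], [(3, (-1)), (10, 6)])]

/-- Certificates for `s = 10`. -/
def certs10 : List Cert :=
  certs10_0 ++ certs10_1 ++ certs10_2 ++ certs10_3 ++ certs10_4 ++ certs10_5 ++ certs10_6

def certs12_0 : List Cert :=
  [([0, 8, 9, 0, 1, 0, 1, 0, 0, 0, 0, 0, 1, 0, 0, 0, 0, 0], [(6, 1, (-1))], [(6, (-6)), (1, 0)]),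
   ([0, 9, 6, 3, 0, 0, 1, 0, 0, 0, 0, 0, 1, 0, 0, 0, 0, 0], [(6, 1, (-1))], [(6, (-6)), (1, 0)]),
   ([0, 9, 7, 1, 0, 2, 0, 0, 0, 0, 0, 0, 1, 0, 0, 0, 0, 0], [(5, 1, (-1))], [(5, (-5)), (1, 0)]),
   ([0, 9, 7, 2, 0, 0, 0, 0, 1, 0, 0, 1, 0, 0, 0, 0, 0, 0], [(1, 2, (-1))], [(1, (-1)), (2, 1)]),
   ([0, 10, 5, 1, 2, 1, 0, 0, 0, 0, 0, 0, 1, 0, 0, 0, 0, 0], [(2, 1, (-1))], [(2, (-2)), (1, 0)]),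
   ([0, 10, 6, 1, 1, 0, 0, 0, 0, 1, 1, 0, 0, 0, 0, 0, 0, 0], [(10, 9, 141), (10, 4, 15), (10, 3, 162), (10, 2, 3), (10, 1, (-66)), (9, 4, 15), (9, 3, 138), (9, 2, (-26)), (4, 3, 3), (4, 2, 3), (4, 1, 3), (3, 2, 45), (3, 1, 69), (2, 1, (-26))], [(10, (-3)), (9, (-3)), (4, (-3)), (3, (-3)), (2, (-3)), (1, (-3))]),
   ([0, 11, 2, 4, 1, 1, 0, 0, 0, 0, 0, 0, 1, 0, 0, 0, 0, 0], [(2, 1, (-1))], [(2, (-2)), (1, 0)]),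
   ([0, 11, 3, 1, 4, 0, 0, 0, 0, 0, 0, 0, 1, 0, 0, 0, 0, 0], [(3, 1, (-1))], [(3, (-3)), (1, 0)])]

def certs12_1 : List Cert :=
  [([0, 11, 3, 4, 0, 0, 0, 0, 0, 1, 1, 0, 0, 0, 0, 0, 0, 0], [(9, 1, (-1))], [(9, (-3)), (1, 0)]),
   ([0, 11, 4, 2, 0, 1, 0, 1, 0, 0, 0, 1, 0, 0, 0, 0, 0, 0], [(7, 1, (-1))], [(7, (-2)), (1, 0)]),
   ([0, 11, 5, 0, 1, 0, 2, 0, 0, 0, 0, 1, 0, 0, 0, 0, 0, 0], [(6, 1, (-1))], [(6, (-2)), (1, 0)]),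
   ([0, 11, 5, 1, 0, 0, 1, 0, 1, 0, 1, 0, 0, 0, 0, 0, 0, 0], [(8, 1, (-1))], [(8, (-3)), (1, 0)]),
   ([0, 12, 0, 4, 3, 0, 0, 0, 0, 0, 0, 0, 1, 0, 0, 0, 0, 0], [(1, 12, (-1))], [(1, (-1)), (12, 9)]),
   ([0, 12, 2, 2, 2, 0, 0, 1, 0, 0, 0, 1, 0, 0, 0, 0, 0, 0], [(7, 1, (-1))], [(7, (-3)), (1, 0)]),
   ([0, 12, 2, 3, 0, 0, 2, 0, 0, 0, 0, 1, 0, 0, 0, 0, 0, 0], [(6, 1, (-1))], [(6, (-2)), (1, 0)]),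
   ([0, 12, 3, 1, 0, 2, 1, 0, 0, 0, 0, 1, 0, 0, 0, 0, 0, 0], [(6, 1, (-1))], [(6, (-2)), (1, 0)])]

def certs12_2 : List Cert :=
  [([0, 12, 3, 2, 0, 0, 0, 2, 0, 0, 1, 0, 0, 0, 0, 0, 0, 0], [(7, 1, (-1))], [(7, (-3)), (1, 0)]),
   ([0, 13, 1, 1, 2, 1, 1, 0, 0, 0, 0, 1, 0, 0, 0, 0, 0, 0], [(6, 1, (-1))], [(6, (-3)), (1, 0)]),
   ([0, 13, 1, 2, 1, 1, 0, 0, 1, 0, 1, 0, 0, 0, 0, 0, 0, 0], [(4, 1, (-1))], [(4, (-2)), (1, 0)]),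
   ([0, 13, 2, 0, 2, 1, 0, 0, 0, 2, 0, 0, 0, 0, 0, 0, 0, 0], [(5, 4, (-1))], [(5, (-1)), (4, 0)]),
   ([0, 13, 2, 1, 0, 1, 1, 1, 0, 0, 1, 0, 0, 0, 0, 0, 0, 0], [(5, 1, (-1))], [(5, (-3)), (1, 0)]),
   ([0, 13, 2, 1, 1, 0, 0, 1, 1, 1, 0, 0, 0, 0, 0, 0, 0, 0], [(8, 1, (-1))], [(8, (-5)), (1, 0)]),
   ([0, 13, 3, 0, 0, 0, 1, 2, 0, 1, 0, 0, 0, 0, 0, 0, 0, 0], [(9, 1, (-1))], [(9, (-8)), (1, 0)]),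
   ([0, 14, 0, 0, 4, 0, 0, 0, 0, 2, 0, 0, 0, 0, 0, 0, 0, 0], [(9, 1, (-1))], [(9, (-8)), (1, 1)])]

def certs12_3 : List Cert :=
  [([0, 14, 0, 1, 2, 0, 1, 1, 0, 0, 1, 0, 0, 0, 0, 0, 0, 0], [(4, 1, (-1))], [(4, (-2)), (1, 0)]),
   ([0, 14, 0, 2, 0, 0, 3, 0, 0, 0, 1, 0, 0, 0, 0, 0, 0, 0], [], [(10, (-1))]),
   ([0, 14, 1, 0, 1, 1, 1, 0, 1, 1, 0, 0, 0, 0, 0, 0, 0, 0], [(6, 1, (-1))], [(6, (-4)), (1, 0)]),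
   ([0, 14, 1, 1, 0, 0, 1, 1, 2, 0, 0, 0, 0, 0, 0, 0, 0, 0], [], [(7, (-1))]),
   ([0, 15, 0, 0, 0, 1, 2, 0, 2, 0, 0, 0, 0, 0, 0, 0, 0, 0], [], [(5, (-1))]),
   ([1, 6, 9, 2, 0, 0, 1, 0, 0, 0, 0, 0, 1, 0, 0, 0, 0, 0], [(6, 1, (-1))], [(6, (-4)), (1, 0)]),
   ([1, 6, 10, 0, 0, 2, 0, 0, 0, 0, 0, 0, 1, 0, 0, 0, 0, 0], [(5, 1, (-1))], [(5, (-3)), (1, 0)]),
   ([1, 7, 8, 0, 2, 1, 0, 0, 0, 0, 0, 0, 1, 0, 0, 0, 0, 0], [(5, 1, (-1))], [(5, (-3)), (1, 0)])]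

def certs12_4 : List Cert :=
  [([1, 8, 5, 3, 1, 1, 0, 0, 0, 0, 0, 0, 1, 0, 0, 0, 0, 0], [(12, 5, 12), (12, 4, (-56)), (12, 3, (-56)), (12, 2, 6), (12, 1, 2), (12, 0, 2), (5, 4, 10), (5, 2, (-6)), (5, 1, 2), (5, 0, 2), (4, 3, 2), (4, 2, 2), (4, 1, (-31)), (4, 0, 2), (3, 2, 2), (3, 1, (-62)), (3, 0, 2), (2, 1, 2), (2, 0, 2), (1, 0, 2)], [(12, (-2)), (5, (-2)), (4, (-2)), (3, (-2)), (2, (-2)), (1, (-2)), (0, (-2))]),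
   ([1, 8, 6, 0, 4, 0, 0, 0, 0, 0, 0, 0, 1, 0, 0, 0, 0, 0], [(12, 4, (-48)), (12, 2, 12), (12, 1, 4), (12, 0, 4), (4, 2, (-2)), (4, 1, (-27)), (4, 0, 4), (2, 1, 4), (2, 0, 4), (1, 0, 4)], [(12, (-4)), (4, (-4)), (2, (-4)), (1, (-4)), (0, (-4))]),
   ([1, 9, 2, 6, 0, 1, 0, 0, 0, 0, 0, 0, 1, 0, 0, 0, 0, 0], [(3, 1, (-1))], [(3, (-1)), (1, 0)]),
   ([1, 9, 3, 3, 3, 0, 0, 0, 0, 0, 0, 0, 1, 0, 0, 0, 0, 0], [(12, 4, (-168)), (12, 3, 24), (12, 2, 18), (12, 1, 6), (12, 0, 6), (4, 3, 2), (4, 2, (-10)), (4, 1, (-85)), (4, 0, 6), (3, 2, 6), (3, 1, 6), (3, 0, 6), (2, 1, 6), (2, 0, 6), (1, 0, 6)], [(12, (-6)), (4, (-6)), (3, (-6)), (2, (-6)), (1, (-6)), (0, (-6))]),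
   ([1, 10, 0, 6, 2, 0, 0, 0, 0, 0, 0, 0, 1, 0, 0, 0, 0, 0], [(3, 1, (-1))], [(3, (-3)), (1, 0)]),
   ([2, 3, 12, 1, 0, 0, 1, 0, 0, 0, 0, 0, 1, 0, 0, 0, 0, 0], [(6, 1, (-1))], [(6, (-2)), (1, 0)]),
   ([2, 5, 8, 2, 1, 1, 0, 0, 0, 0, 0, 0, 1, 0, 0, 0, 0, 0], [(5, 1, (-1))], [(5, (-1)), (1, 0)]),
   ([2, 6, 5, 5, 0, 1, 0, 0, 0, 0, 0, 0, 1, 0, 0, 0, 0, 0], [(12, 5, (-75)), (12, 3, (-35)), (12, 2, 15), (12, 1, 5), (12, 0, 5), (5, 3, (-2)), (5, 2, 5), (5, 1, (-100)), (5, 0, 5), (3, 2, 5), (3, 1, (-25)), (3, 0, (-20)), (2, 1, 5), (2, 0, 5), (1, 0, 5)], [(12, (-5)), (5, (-5)), (3, (-5)), (2, (-5)), (1, (-5)), (0, (-5))])]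

def certs12_5 : List Cert :=
  [([2, 6, 6, 2, 3, 0, 0, 0, 0, 0, 0, 0, 1, 0, 0, 0, 0, 0], [(12, 4, (-31)), (12, 3, 4), (12, 2, 3), (12, 1, 1), (12, 0, 1), (4, 3, 1), (4, 2, (-17)), (4, 1, (-35)), (4, 0, 1), (3, 2, 1), (3, 1, 1), (3, 0, 1), (2, 1, 1), (2, 0, 1), (1, 0, 1)], [(12, (-1)), (4, (-1)), (3, (-1)), (2, (-1)), (1, (-1)), (0, (-1))]),
   ([2, 7, 3, 5, 2, 0, 0, 0, 0, 0, 0, 0, 1, 0, 0, 0, 0, 0], [(12, 4, 20), (12, 3, (-108)), (12, 2, 12), (12, 1, 4), (12, 0, 60), (4, 3, (-1)), (4, 2, 4), (4, 1, 4), (4, 0, 4), (3, 2, 4), (3, 1, (-60)), (3, 0, (-56)), (2, 1, 4), (2, 0, 4), (1, 0, 4)], [(12, (-4)), (4, (-4)), (3, (-4)), (2, (-4)), (1, (-4)), (0, (-4))]),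
   ([2, 8, 0, 8, 1, 0, 0, 0, 0, 0, 0, 0, 1, 0, 0, 0, 0, 0], [(4, 1, (-1))], [(4, (-1)), (1, 0)]),
   ([3, 0, 15, 0, 0, 0, 1, 0, 0, 0, 0, 0, 1, 0, 0, 0, 0, 0], [(6, 2, (-1))], [(6, (-3)), (2, 0)]),
   ([3, 2, 11, 1, 1, 1, 0, 0, 0, 0, 0, 0, 1, 0, 0, 0, 0, 0], [(5, 0, (-1))], [(5, (-2)), (0, 0)]),
   ([3, 3, 8, 4, 0, 1, 0, 0, 0, 0, 0, 0, 1, 0, 0, 0, 0, 0], [(5, 0, (-1))], [(5, (-1)), (0, 0)]),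
   ([3, 3, 9, 1, 3, 0, 0, 0, 0, 0, 0, 0, 1, 0, 0, 0, 0, 0], [(4, 0, (-1))], [(4, (-1)), (0, 0)]),
   ([3, 4, 6, 4, 2, 0, 0, 0, 0, 0, 0, 0, 1, 0, 0, 0, 0, 0], [(12, 4, (-144)), (12, 3, (-92)), (12, 2, 36), (12, 1, 12), (12, 0, 12), (4, 3, (-13)), (4, 2, (-26)), (4, 1, (-39)), (4, 0, (-52)), (3, 2, 12), (3, 1, (-64)), (3, 0, (-52)), (2, 1, 12), (2, 0, 12), (1, 0, 12)], [(12, (-12)), (4, (-12)), (3, (-12)), (2, (-12)), (1, (-12)), (0, (-12))])]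

def certs12_6 : List Cert :=
  [([3, 5, 3, 7, 1, 0, 0, 0, 0, 0, 0, 0, 1, 0, 0, 0, 0, 0], [(12, 4, 5), (12, 3, (-7)), (12, 2, 3), (12, 1, 1), (12, 0, 1), (4, 3, 1), (4, 2, 1), (4, 1, 1), (4, 0, 1), (3, 2, 1), (3, 1, (-5)), (3, 0, (-4)), (2, 1, 1), (2, 0, 1), (1, 0, 1)], [(12, (-1)), (4, (-1)), (3, (-1)), (2, (-1)), (1, (-1)), (0, (-1))]),
   ([3, 6, 0, 10, 0, 0, 0, 0, 0, 0, 0, 0, 1, 0, 0, 0, 0, 0], [(3, 12, (-1))], [(3, (-1)), (12, 7)]),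
   ([4, 0, 11, 3, 0, 1, 0, 0, 0, 0, 0, 0, 1, 0, 0, 0, 0, 0], [(5, 3, (-1))], [(5, (-1)), (3, 0)]),
   ([4, 0, 12, 0, 3, 0, 0, 0, 0, 0, 0, 0, 1, 0, 0, 0, 0, 0], [(4, 0, (-1))], [(4, (-2)), (0, 0)]),
   ([4, 1, 9, 3, 2, 0, 0, 0, 0, 0, 0, 0, 1, 0, 0, 0, 0, 0], [], [(1, (-1))]),
   ([4, 2, 6, 6, 1, 0, 0, 0, 0, 0, 0, 0, 1, 0, 0, 0, 0, 0], [(4, 0, (-1))], [(4, (-1)), (0, 0)]),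
   ([4, 3, 3, 9, 0, 0, 0, 0, 0, 0, 0, 0, 1, 0, 0, 0, 0, 0], [(3, 12, (-1))], [(3, (-1)), (12, 7)]),
   ([5, 0, 6, 8, 0, 0, 0, 0, 0, 0, 0, 0, 1, 0, 0, 0, 0, 0], [(3, 0, (-1))], [(3, (-2)), (0, 0)])]

/-- Certificates for `s = 12`. -/
def certs12 : List Cert :=
  certs12_0 ++ certs12_1 ++ certs12_2 ++ certs12_3 ++ certs12_4 ++ certs12_5 ++ certs12_6

def certs14_0 : List Cert :=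
  [([0, 6, 11, 1, 0, 1, 0, 0, 0, 0, 0, 0, 0, 0, 1, 0, 0, 0], [(5, 1, (-1))], [(5, (-5)), (1, 0)]),
   ([0, 7, 9, 1, 2, 0, 0, 0, 0, 0, 0, 0, 0, 0, 1, 0, 0, 0], [(4, 1, (-1))], [(4, (-4)), (1, 0)]),
   ([0, 8, 6, 4, 1, 0, 0, 0, 0, 0, 0, 0, 0, 0, 1, 0, 0, 0], [(4, 1, (-1))], [(4, (-4)), (1, 0)]),
   ([0, 9, 3, 7, 0, 0, 0, 0, 0, 0, 0, 0, 0, 0, 1, 0, 0, 0], [(3, 14, (-1))], [(3, (-1)), (14, 6)]),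
   ([0, 9, 7, 1, 1, 0, 0, 1, 0, 0, 0, 0, 0, 1, 0, 0, 0, 0], [(7, 2, (-1))], [(7, (-1)), (2, 0)]),
   ([0, 9, 7, 2, 0, 0, 0, 0, 0, 1, 0, 0, 1, 0, 0, 0, 0, 0], [(9, 1, (-1))], [(9, (-7)), (1, 0)]),
   ([0, 10, 4, 4, 0, 0, 0, 1, 0, 0, 0, 0, 0, 1, 0, 0, 0, 0], [(7, 2, (-1))], [(7, (-1)), (2, 0)]),
   ([0, 10, 6, 0, 1, 1, 1, 0, 0, 0, 0, 0, 0, 1, 0, 0, 0, 0], [(6, 2, (-1))], [(6, (-1)), (2, 0)])]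

def certs14_1 : List Cert :=
  [([0, 10, 6, 1, 1, 0, 0, 0, 0, 0, 1, 1, 0, 0, 0, 0, 0, 0], [(10, 1, (-1))], [(10, (-7)), (1, 0)]),
   ([0, 11, 3, 3, 0, 1, 1, 0, 0, 0, 0, 0, 0, 1, 0, 0, 0, 0], [(6, 2, (-1))], [(6, (-1)), (2, 0)]),
   ([0, 11, 4, 0, 3, 0, 1, 0, 0, 0, 0, 0, 0, 1, 0, 0, 0, 0], [(6, 2, (-1))], [(6, (-1)), (2, 0)]),
   ([0, 11, 4, 1, 0, 3, 0, 0, 0, 0, 0, 0, 0, 1, 0, 0, 0, 0], [(5, 2, (-1))], [(5, (-1)), (2, 0)]),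
   ([0, 12, 1, 3, 2, 0, 1, 0, 0, 0, 0, 0, 0, 1, 0, 0, 0, 0], [], [(2, (-1))]),
   ([0, 12, 2, 1, 2, 2, 0, 0, 0, 0, 0, 0, 0, 1, 0, 0, 0, 0], [(5, 2, (-1))], [(5, (-1)), (2, 0)]),
   ([0, 12, 2, 3, 0, 1, 0, 0, 1, 0, 0, 0, 1, 0, 0, 0, 0, 0], [(8, 1, (-1))], [(8, (-6)), (1, 0)]),
   ([0, 12, 3, 2, 0, 0, 1, 0, 0, 1, 0, 1, 0, 0, 0, 0, 0, 0], [(11, 1, (-1))], [(11, (-7)), (1, 0)])]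

def certs14_2 : List Cert :=
  [([0, 13, 0, 3, 2, 0, 0, 0, 1, 0, 0, 0, 1, 0, 0, 0, 0, 0], [(8, 1, (-1))], [(8, (-7)), (1, 0)]),
   ([0, 13, 1, 2, 1, 0, 1, 1, 0, 0, 0, 0, 1, 0, 0, 0, 0, 0], [(7, 1, (-1))], [(7, (-3)), (1, 0)]),
   ([0, 13, 2, 0, 2, 1, 0, 0, 0, 1, 0, 1, 0, 0, 0, 0, 0, 0], [(9, 1, (-1))], [(9, (-8)), (1, 0)]),
   ([0, 13, 2, 1, 0, 2, 0, 0, 0, 0, 2, 0, 0, 0, 0, 0, 0, 0], [(10, 1, (-1))], [(10, (-7)), (1, 1)]),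
   ([0, 13, 2, 1, 1, 0, 0, 1, 1, 0, 0, 1, 0, 0, 0, 0, 0, 0], [(3, 1, (-1))], [(3, (-2)), (1, 0)]),
   ([0, 13, 3, 0, 0, 1, 0, 1, 0, 1, 1, 0, 0, 0, 0, 0, 0, 0], [], [(5, (-1))]),
   ([0, 14, 0, 0, 4, 0, 0, 0, 0, 1, 0, 1, 0, 0, 0, 0, 0, 0], [], [(11, (-1))]),
   ([0, 14, 0, 1, 1, 1, 2, 0, 0, 0, 0, 0, 1, 0, 0, 0, 0, 0], [(6, 1, (-1))], [(6, (-5)), (1, 0)])]

def certs14_3 : List Cert :=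
  [([0, 14, 0, 1, 2, 1, 0, 0, 0, 0, 2, 0, 0, 0, 0, 0, 0, 0], [], [(5, (-1))]),
   ([0, 14, 1, 0, 1, 1, 1, 0, 1, 0, 0, 1, 0, 0, 0, 0, 0, 0], [(8, 1, (-1))], [(8, (-5)), (1, 0)]),
   ([0, 14, 1, 1, 0, 0, 2, 0, 0, 1, 1, 0, 0, 0, 0, 0, 0, 0], [(10, 6, (-1))], [(10, (-1)), (6, 0)]),
   ([0, 14, 1, 1, 0, 1, 0, 0, 2, 0, 1, 0, 0, 0, 0, 0, 0, 0], [], [(5, (-1))]),
   ([0, 14, 2, 0, 0, 0, 0, 1, 2, 1, 0, 0, 0, 0, 0, 0, 0, 0], [], [(7, (-1))]),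
   ([0, 15, 0, 0, 1, 0, 1, 1, 1, 0, 1, 0, 0, 0, 0, 0, 0, 0], [], [(8, (-1))]),
   ([1, 3, 14, 0, 0, 1, 0, 0, 0, 0, 0, 0, 0, 0, 1, 0, 0, 0], [(5, 2, (-1))], [(5, (-1)), (2, 0)]),
   ([1, 4, 12, 0, 2, 0, 0, 0, 0, 0, 0, 0, 0, 0, 1, 0, 0, 0], [(4, 1, (-1))], [(4, (-2)), (1, 0)])]

def certs14_4 : List Cert :=
  [([1, 5, 9, 3, 1, 0, 0, 0, 0, 0, 0, 0, 0, 0, 1, 0, 0, 0], [(4, 1, (-1))], [(4, (-2)), (1, 0)]),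
   ([1, 6, 6, 6, 0, 0, 0, 0, 0, 0, 0, 0, 0, 0, 1, 0, 0, 0], [(3, 1, (-1))], [(3, (-1)), (1, 0)]),
   ([2, 2, 12, 2, 1, 0, 0, 0, 0, 0, 0, 0, 0, 0, 1, 0, 0, 0], [(4, 0, (-1))], [(4, (-1)), (0, 0)]),
   ([2, 3, 9, 5, 0, 0, 0, 0, 0, 0, 0, 0, 0, 0, 1, 0, 0, 0], [(14, 3, (-31)), (14, 2, 9), (14, 1, 3), (14, 0, 3), (3, 2, 3), (3, 1, (-20)), (3, 0, (-17)), (2, 1, 3), (2, 0, 3), (1, 0, 3)], [(14, (-3)), (3, (-3)), (2, (-3)), (1, (-3)), (0, (-3))]),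
   ([3, 0, 12, 4, 0, 0, 0, 0, 0, 0, 0, 0, 0, 0, 1, 0, 0, 0], [(3, 0, (-1))], [(3, (-2)), (0, 0)])]

/-- Certificates for `s = 14`. -/
def certs14 : List Cert :=
  certs14_0 ++ certs14_1 ++ certs14_2 ++ certs14_3 ++ certs14_4

def certs16_0 : List Cert :=
  [([0, 6, 11, 1, 0, 0, 1, 0, 0, 0, 0, 0, 0, 0, 0, 1, 0, 0], [(6, 2, (-1))], [(6, (-1)), (2, 0)]),
   ([0, 8, 7, 2, 1, 1, 0, 0, 0, 0, 0, 0, 0, 0, 0, 1, 0, 0], [(5, 2, (-1))], [(5, (-1)), (2, 0)]),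
   ([0, 9, 4, 5, 0, 1, 0, 0, 0, 0, 0, 0, 0, 0, 0, 1, 0, 0], [(5, 2, (-1))], [(5, (-1)), (2, 0)]),
   ([0, 9, 5, 2, 3, 0, 0, 0, 0, 0, 0, 0, 0, 0, 0, 1, 0, 0], [(4, 2, (-1))], [(4, (-1)), (2, 0)]),
   ([0, 9, 6, 3, 0, 0, 0, 0, 1, 0, 0, 0, 0, 0, 1, 0, 0, 0], [(8, 1, (-1))], [(8, (-6)), (1, 0)]),
   ([0, 10, 2, 5, 2, 0, 0, 0, 0, 0, 0, 0, 0, 0, 0, 1, 0, 0], [(4, 2, (-1))], [(4, (-1)), (2, 0)]),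
   ([0, 11, 3, 3, 0, 1, 0, 1, 0, 0, 0, 0, 0, 0, 1, 0, 0, 0], [(7, 1, (-1))], [(7, (-5)), (1, 0)]),
   ([0, 11, 4, 1, 1, 0, 2, 0, 0, 0, 0, 0, 0, 0, 1, 0, 0, 0], [(6, 1, (-1))], [(6, (-4)), (1, 0)])]

def certs16_1 : List Cert :=
  [([0, 12, 1, 3, 2, 0, 0, 1, 0, 0, 0, 0, 0, 0, 1, 0, 0, 0], [(7, 3, (-1))], [(7, (-1)), (3, 0)]),
   ([0, 12, 1, 4, 0, 0, 2, 0, 0, 0, 0, 0, 0, 0, 1, 0, 0, 0], [(6, 3, (-1))], [(6, (-1)), (3, 0)]),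
   ([0, 12, 2, 2, 0, 2, 1, 0, 0, 0, 0, 0, 0, 0, 1, 0, 0, 0], [(6, 1, (-1))], [(6, (-4)), (1, 0)]),
   ([0, 12, 2, 2, 2, 0, 0, 0, 0, 1, 0, 0, 0, 1, 0, 0, 0, 0], [(9, 1, (-1))], [(9, (-7)), (1, 0)]),
   ([0, 12, 3, 2, 0, 0, 1, 0, 0, 0, 0, 2, 0, 0, 0, 0, 0, 0], [(11, 1, (-1))], [(11, (-7)), (1, 1)]),
   ([0, 13, 0, 2, 2, 1, 1, 0, 0, 0, 0, 0, 0, 0, 1, 0, 0, 0], [(6, 1, (-1))], [(6, (-5)), (1, 0)]),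
   ([0, 13, 1, 2, 1, 0, 1, 0, 1, 0, 0, 0, 0, 1, 0, 0, 0, 0], [(8, 1, (-1))], [(8, (-6)), (1, 0)]),
   ([0, 13, 1, 2, 1, 1, 0, 0, 0, 0, 1, 0, 1, 0, 0, 0, 0, 0], [(10, 1, (-1))], [(10, (-8)), (1, 0)])]

def certs16_2 : List Cert :=
  [([0, 13, 2, 0, 1, 2, 0, 0, 1, 0, 0, 0, 0, 1, 0, 0, 0, 0], [(8, 1, (-1))], [(8, (-7)), (1, 0)]),
   ([0, 13, 2, 0, 2, 0, 0, 2, 0, 0, 0, 0, 0, 1, 0, 0, 0, 0], [(7, 1, (-1))], [(7, (-6)), (1, 0)]),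
   ([0, 13, 3, 0, 0, 1, 0, 1, 0, 0, 1, 1, 0, 0, 0, 0, 0, 0], [(11, 1, (-1))], [(11, (-8)), (1, 0)]),
   ([0, 14, 0, 0, 3, 1, 0, 0, 1, 0, 0, 0, 0, 1, 0, 0, 0, 0], [], [(13, (-1))]),
   ([0, 14, 1, 0, 1, 1, 1, 0, 0, 1, 0, 0, 1, 0, 0, 0, 0, 0], [(9, 1, (-1))], [(9, (-7)), (1, 0)]),
   ([0, 14, 1, 0, 2, 0, 0, 1, 0, 0, 1, 1, 0, 0, 0, 0, 0, 0], [], [(10, (-1))]),
   ([0, 14, 1, 1, 0, 0, 2, 0, 0, 0, 1, 1, 0, 0, 0, 0, 0, 0], [(10, 1, (-1))], [(10, (-9)), (1, 0)]),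
   ([0, 14, 2, 0, 0, 0, 0, 2, 0, 0, 2, 0, 0, 0, 0, 0, 0, 0], [(10, 1, (-1))], [(10, (-9)), (1, 1)])]

def certs16_3 : List Cert :=
  [([0, 15, 0, 0, 0, 1, 2, 0, 1, 0, 0, 0, 1, 0, 0, 0, 0, 0], [], [(12, (-1))])]

/-- Certificates for `s = 16`. -/
def certs16 : List Cert :=
  certs16_0 ++ certs16_1 ++ certs16_2 ++ certs16_3

def certs18_0 : List Cert :=
  [([0, 7, 9, 1, 1, 0, 1, 0, 0, 0, 0, 0, 0, 0, 0, 0, 1, 0], [(6, 1, (-1))], [(6, (-4)), (1, 0)]),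
   ([0, 8, 6, 4, 0, 0, 1, 0, 0, 0, 0, 0, 0, 0, 0, 0, 1, 0], [(6, 1, (-1))], [(6, (-4)), (1, 0)]),
   ([0, 8, 7, 2, 0, 2, 0, 0, 0, 0, 0, 0, 0, 0, 0, 0, 1, 0], [(5, 1, (-1))], [(5, (-3)), (1, 0)]),
   ([0, 9, 5, 2, 2, 1, 0, 0, 0, 0, 0, 0, 0, 0, 0, 0, 1, 0], [(5, 1, (-1))], [(5, (-3)), (1, 0)]),
   ([0, 10, 2, 5, 1, 1, 0, 0, 0, 0, 0, 0, 0, 0, 0, 0, 1, 0], [(5, 1, (-1))], [(5, (-3)), (1, 0)]),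
   ([0, 10, 3, 2, 4, 0, 0, 0, 0, 0, 0, 0, 0, 0, 0, 0, 1, 0], [(4, 1, (-1))], [(4, (-2)), (1, 0)]),
   ([0, 10, 5, 1, 2, 0, 0, 0, 1, 0, 0, 0, 0, 0, 0, 1, 0, 0], [(8, 1, (-1))], [(8, (-5)), (1, 0)]),
   ([0, 10, 6, 0, 1, 0, 1, 1, 0, 0, 0, 0, 0, 0, 0, 1, 0, 0], [(7, 1, (-1))], [(7, (-4)), (1, 0)])]

def certs18_1 : List Cert :=
  [([0, 11, 0, 5, 3, 0, 0, 0, 0, 0, 0, 0, 0, 0, 0, 0, 1, 0], [(4, 3, (-1))], [(4, (-1)), (3, 0)]),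
   ([0, 11, 2, 4, 1, 0, 0, 0, 1, 0, 0, 0, 0, 0, 0, 1, 0, 0], [(8, 1, (-1))], [(8, (-6)), (1, 0)]),
   ([0, 11, 6, 0, 0, 0, 0, 0, 0, 1, 1, 0, 1, 0, 0, 0, 0, 0], [(12, 1, (-1))], [(12, (-11)), (1, 0)]),
   ([0, 12, 2, 1, 2, 1, 0, 1, 0, 0, 0, 0, 0, 0, 0, 1, 0, 0], [(7, 1, (-1))], [(7, (-5)), (1, 0)]),
   ([0, 12, 3, 1, 0, 2, 0, 0, 0, 1, 0, 0, 0, 0, 1, 0, 0, 0], [(9, 1, (-1))], [(9, (-6)), (1, 0)]),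
   ([0, 13, 0, 1, 4, 0, 0, 1, 0, 0, 0, 0, 0, 0, 0, 1, 0, 0], [(7, 1, (-1))], [(7, (-6)), (1, 0)]),
   ([0, 13, 0, 2, 2, 0, 2, 0, 0, 0, 0, 0, 0, 0, 0, 1, 0, 0], [(6, 1, (-1))], [(6, (-5)), (1, 0)]),
   ([0, 13, 1, 0, 2, 2, 1, 0, 0, 0, 0, 0, 0, 0, 0, 1, 0, 0], [(6, 1, (-1))], [(6, (-5)), (1, 0)])]

def certs18_2 : List Cert :=
  [([0, 13, 1, 1, 2, 1, 0, 0, 0, 1, 0, 0, 0, 0, 1, 0, 0, 0], [(9, 1, (-1))], [(9, (-7)), (1, 0)]),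
   ([0, 13, 2, 1, 0, 1, 1, 0, 0, 0, 1, 0, 0, 1, 0, 0, 0, 0], [(10, 1, (-1))], [(10, (-8)), (1, 0)]),
   ([0, 13, 2, 1, 1, 0, 0, 1, 0, 0, 0, 1, 1, 0, 0, 0, 0, 0], [(11, 1, (-1))], [(11, (-8)), (1, 0)]),
   ([0, 13, 3, 0, 0, 0, 1, 1, 0, 1, 0, 0, 0, 1, 0, 0, 0, 0], [(9, 1, (-1))], [(9, (-8)), (1, 0)]),
   ([0, 14, 0, 1, 1, 1, 1, 0, 1, 0, 0, 0, 0, 0, 1, 0, 0, 0], [(8, 1, (-1))], [(8, (-7)), (1, 0)]),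
   ([0, 14, 0, 1, 2, 0, 1, 0, 0, 0, 1, 0, 0, 1, 0, 0, 0, 0], [(10, 1, (-1))], [(10, (-8)), (1, 0)]),
   ([0, 14, 1, 0, 0, 1, 2, 1, 0, 0, 0, 0, 0, 0, 1, 0, 0, 0], [(7, 1, (-1))], [(7, (-6)), (1, 0)]),
   ([0, 14, 1, 1, 0, 0, 1, 0, 2, 0, 0, 0, 0, 1, 0, 0, 0, 0], [(8, 1, (-1))], [(8, (-7)), (1, 0)])]

def certs18_3 : List Cert :=
  [([0, 14, 2, 0, 0, 0, 0, 1, 1, 1, 0, 0, 1, 0, 0, 0, 0, 0], [(9, 1, (-1))], [(9, (-8)), (1, 0)]),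
   ([0, 14, 2, 0, 0, 0, 1, 0, 0, 1, 1, 1, 0, 0, 0, 0, 0, 0], [(11, 1, (-1))], [(11, (-10)), (1, 0)]),
   ([0, 15, 0, 0, 1, 0, 1, 1, 0, 0, 1, 0, 1, 0, 0, 0, 0, 0], [(10, 1, (-1))], [(10, (-9)), (1, 0)])]

/-- Certificates for `s = 18`. -/
def certs18 : List Cert :=
  certs18_0 ++ certs18_1 ++ certs18_2 ++ certs18_3

def certs20_0 : List Cert :=
  [([0, 7, 9, 0, 2, 0, 1, 0, 0, 0, 0, 0, 0, 0, 0, 0, 0, 1], [(6, 1, (-1))], [(6, (-3)), (1, 0)]),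
   ([0, 8, 6, 3, 1, 0, 1, 0, 0, 0, 0, 0, 0, 0, 0, 0, 0, 1], [(6, 1, (-1))], [(6, (-3)), (1, 0)]),
   ([0, 8, 7, 1, 1, 2, 0, 0, 0, 0, 0, 0, 0, 0, 0, 0, 0, 1], [(5, 1, (-1))], [(5, (-2)), (1, 0)]),
   ([0, 9, 5, 1, 3, 1, 0, 0, 0, 0, 0, 0, 0, 0, 0, 0, 0, 1], [(5, 1, (-1))], [(5, (-2)), (1, 0)]),
   ([0, 10, 2, 4, 2, 1, 0, 0, 0, 0, 0, 0, 0, 0, 0, 0, 0, 1], [(5, 1, (-1))], [(5, (-3)), (1, 0)]),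
   ([0, 10, 3, 1, 5, 0, 0, 0, 0, 0, 0, 0, 0, 0, 0, 0, 0, 1], [(2, 17, (-1))], [(2, (-1)), (17, 2)]),
   ([0, 10, 5, 1, 1, 1, 0, 0, 1, 0, 0, 0, 0, 0, 0, 0, 1, 0], [(8, 1, (-1))], [(8, (-4)), (1, 0)]),
   ([0, 10, 6, 0, 0, 1, 1, 1, 0, 0, 0, 0, 0, 0, 0, 0, 1, 0], [(7, 1, (-1))], [(7, (-3)), (1, 0)])]

def certs20_1 : List Cert :=
  [([0, 11, 0, 4, 4, 0, 0, 0, 0, 0, 0, 0, 0, 0, 0, 0, 0, 1], [], [(17, (-1))]),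
   ([0, 11, 2, 4, 0, 1, 0, 0, 1, 0, 0, 0, 0, 0, 0, 0, 1, 0], [(8, 1, (-1))], [(8, (-5)), (1, 0)]),
   ([0, 11, 6, 0, 0, 0, 0, 0, 0, 0, 1, 1, 1, 0, 0, 0, 0, 0], [], [(11, (-1))]),
   ([0, 12, 2, 1, 1, 2, 0, 1, 0, 0, 0, 0, 0, 0, 0, 0, 1, 0], [(7, 1, (-1))], [(7, (-4)), (1, 0)]),
   ([0, 12, 3, 1, 0, 1, 1, 0, 0, 1, 0, 0, 0, 0, 0, 1, 0, 0], [(9, 1, (-1))], [(9, (-5)), (1, 0)]),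
   ([0, 13, 0, 1, 3, 1, 0, 1, 0, 0, 0, 0, 0, 0, 0, 0, 1, 0], [], [(5, (-1))]),
   ([0, 13, 0, 2, 1, 1, 2, 0, 0, 0, 0, 0, 0, 0, 0, 0, 1, 0], [(6, 1, (-1))], [(6, (-4)), (1, 0)]),
   ([0, 13, 1, 0, 1, 3, 1, 0, 0, 0, 0, 0, 0, 0, 0, 0, 1, 0], [], [(16, (-1))])]

def certs20_2 : List Cert :=
  [([0, 13, 1, 1, 2, 0, 1, 0, 0, 1, 0, 0, 0, 0, 0, 1, 0, 0], [(9, 1, (-1))], [(9, (-7)), (1, 0)]),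
   ([0, 13, 2, 1, 0, 1, 0, 1, 0, 0, 1, 0, 0, 0, 1, 0, 0, 0], [(10, 1, (-1))], [(10, (-7)), (1, 0)]),
   ([0, 13, 2, 1, 1, 0, 0, 0, 1, 0, 0, 1, 0, 1, 0, 0, 0, 0], [(11, 1, (-1))], [(11, (-7)), (1, 0)]),
   ([0, 13, 3, 0, 0, 0, 0, 2, 0, 1, 0, 0, 0, 0, 1, 0, 0, 0], [], [(14, (-1))]),
   ([0, 14, 0, 1, 1, 0, 2, 0, 1, 0, 0, 0, 0, 0, 0, 1, 0, 0], [(8, 1, (-1))], [(8, (-6)), (1, 0)]),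
   ([0, 14, 0, 1, 2, 0, 0, 1, 0, 0, 1, 0, 0, 0, 1, 0, 0, 0], [], [(14, (-1))]),
   ([0, 14, 1, 0, 0, 0, 3, 1, 0, 0, 0, 0, 0, 0, 0, 1, 0, 0], [], [(15, (-1))]),
   ([0, 14, 1, 1, 0, 0, 0, 1, 2, 0, 0, 0, 0, 0, 1, 0, 0, 0], [], [(14, (-1))])]

def certs20_3 : List Cert :=
  [([0, 14, 2, 0, 0, 0, 0, 0, 2, 1, 0, 0, 0, 1, 0, 0, 0, 0], [], [(13, (-1))]),
   ([0, 14, 2, 0, 0, 0, 1, 0, 0, 0, 1, 2, 0, 0, 0, 0, 0, 0], [], [(10, (-1))]),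
   ([0, 15, 0, 0, 1, 0, 1, 0, 1, 0, 1, 0, 0, 1, 0, 0, 0, 0], [], [(8, (-1))])]

/-- Certificates for `s = 20`. -/
def certs20 : List Cert :=
  certs20_0 ++ certs20_1 ++ certs20_2 ++ certs20_3

def certs22_0 : List Cert :=
  [([0, 9, 6, 2, 0, 0, 1, 0, 1, 0, 0, 0, 0, 0, 0, 0, 0, 1], [(8, 1, (-1))], [(8, (-3)), (1, 0)]),
   ([0, 11, 3, 2, 0, 1, 1, 1, 0, 0, 0, 0, 0, 0, 0, 0, 0, 1], [(7, 1, (-1))], [(7, (-3)), (1, 0)]),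
   ([0, 11, 4, 0, 1, 0, 3, 0, 0, 0, 0, 0, 0, 0, 0, 0, 0, 1], [(4, 1, (-1))], [(4, (-3)), (1, 0)]),
   ([0, 12, 1, 2, 2, 0, 1, 1, 0, 0, 0, 0, 0, 0, 0, 0, 0, 1], [(7, 1, (-1))], [(7, (-4)), (1, 0)]),
   ([0, 12, 1, 3, 0, 0, 3, 0, 0, 0, 0, 0, 0, 0, 0, 0, 0, 1], [(2, 17, (-1))], [(2, (-1)), (17, 0)]),
   ([0, 12, 2, 1, 0, 2, 2, 0, 0, 0, 0, 0, 0, 0, 0, 0, 0, 1], [(5, 1, (-1))], [(5, (-3)), (1, 0)]),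
   ([0, 12, 2, 2, 1, 0, 0, 1, 0, 1, 0, 0, 0, 0, 0, 0, 1, 0], [(9, 1, (-1))], [(9, (-5)), (1, 0)]),
   ([0, 12, 3, 2, 0, 0, 0, 0, 0, 1, 0, 1, 0, 0, 1, 0, 0, 0], [], [(9, (-1))])]

def certs22_1 : List Cert :=
  [([0, 13, 0, 1, 2, 1, 2, 0, 0, 0, 0, 0, 0, 0, 0, 0, 0, 1], [], [(17, (-1))]),
   ([0, 13, 1, 2, 0, 0, 1, 1, 1, 0, 0, 0, 0, 0, 0, 0, 1, 0], [(8, 1, (-1))], [(8, (-6)), (1, 0)]),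
   ([0, 13, 1, 2, 1, 0, 0, 0, 1, 0, 1, 0, 0, 0, 0, 1, 0, 0], [(10, 1, (-1))], [(10, (-7)), (1, 0)]),
   ([0, 13, 2, 0, 0, 2, 0, 1, 1, 0, 0, 0, 0, 0, 0, 0, 1, 0], [(8, 1, (-1))], [(8, (-5)), (1, 0)]),
   ([0, 13, 2, 0, 1, 0, 0, 3, 0, 0, 0, 0, 0, 0, 0, 0, 1, 0], [(7, 1, (-1))], [(7, (-6)), (1, 1)]),
   ([0, 13, 3, 0, 0, 1, 0, 0, 0, 0, 1, 1, 0, 1, 0, 0, 0, 0], [], [(10, (-1))]),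
   ([0, 14, 0, 0, 2, 1, 0, 1, 1, 0, 0, 0, 0, 0, 0, 0, 1, 0], [], [(16, (-1))]),
   ([0, 14, 1, 0, 1, 0, 1, 0, 1, 1, 0, 0, 0, 0, 0, 1, 0, 0], [], [(8, (-1))])]

def certs22_2 : List Cert :=
  [([0, 14, 1, 0, 2, 0, 0, 0, 0, 0, 1, 1, 0, 1, 0, 0, 0, 0], [], [(13, (-1))]),
   ([0, 14, 1, 1, 0, 0, 1, 0, 0, 1, 1, 0, 0, 0, 1, 0, 0, 0], [], [(14, (-1))]),
   ([0, 14, 2, 0, 0, 0, 0, 1, 0, 0, 2, 0, 0, 1, 0, 0, 0, 0], [], [(13, (-1))]),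
   ([0, 15, 0, 0, 0, 0, 2, 0, 2, 0, 0, 0, 0, 0, 0, 1, 0, 0], [], [(15, (-1))])]

/-- Certificates for `s = 22`. -/
def certs22 : List Cert :=
  certs22_0 ++ certs22_1 ++ certs22_2

def certs24_0 : List Cert :=
  [([0, 9, 7, 1, 0, 0, 0, 0, 1, 1, 0, 0, 0, 0, 0, 0, 0, 1], [(9, 1, (-1))], [(9, (-2)), (1, 0)]),
   ([0, 10, 6, 1, 0, 0, 0, 0, 0, 1, 1, 0, 0, 0, 0, 0, 1, 0], [(10, 1, (-1))], [(10, (-3)), (1, 0)]),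
   ([0, 12, 2, 2, 0, 1, 0, 0, 2, 0, 0, 0, 0, 0, 0, 0, 0, 1], [(5, 1, (-1))], [(5, (-4)), (1, 0)]),
   ([0, 12, 3, 2, 0, 0, 0, 0, 0, 0, 0, 2, 0, 0, 1, 0, 0, 0], [(11, 1, (-1))], [(11, (-10)), (1, 1)]),
   ([0, 13, 0, 2, 2, 0, 0, 0, 2, 0, 0, 0, 0, 0, 0, 0, 0, 1], [], [(17, (-1))]),
   ([0, 13, 1, 1, 1, 0, 1, 1, 1, 0, 0, 0, 0, 0, 0, 0, 0, 1], [(7, 1, (-1))], [(7, (-5)), (1, 0)]),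
   ([0, 13, 2, 0, 1, 1, 0, 0, 0, 2, 0, 0, 0, 0, 0, 0, 1, 0], [(5, 1, (-1))], [(5, (-4)), (1, 0)]),
   ([0, 13, 2, 1, 0, 0, 0, 1, 1, 1, 0, 0, 0, 0, 0, 0, 1, 0], [(8, 1, (-1))], [(8, (-5)), (1, 0)])]

def certs24_1 : List Cert :=
  [([0, 13, 2, 1, 0, 1, 0, 0, 0, 0, 2, 0, 0, 0, 0, 1, 0, 0], [(10, 1, (-1))], [(10, (-9)), (1, 1)]),
   ([0, 13, 2, 1, 1, 0, 0, 0, 0, 0, 0, 1, 1, 1, 0, 0, 0, 0], [(11, 1, (-1))], [(11, (-10)), (1, 0)]),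
   ([0, 13, 3, 0, 0, 0, 0, 1, 0, 1, 1, 0, 0, 0, 0, 1, 0, 0], [(9, 1, (-1))], [(9, (-5)), (1, 0)]),
   ([0, 14, 0, 0, 1, 1, 2, 0, 1, 0, 0, 0, 0, 0, 0, 0, 0, 1], [], [(17, (-1))]),
   ([0, 14, 0, 0, 3, 0, 0, 0, 0, 2, 0, 0, 0, 0, 0, 0, 1, 0], [], [(16, (-1))]),
   ([0, 14, 0, 1, 2, 0, 0, 0, 0, 0, 2, 0, 0, 0, 0, 1, 0, 0], [(10, 1, (-1))], [(10, (-9)), (1, 1)]),
   ([0, 14, 1, 0, 0, 1, 1, 0, 1, 1, 0, 0, 0, 0, 0, 0, 1, 0], [], [(16, (-1))]),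
   ([0, 14, 1, 1, 0, 0, 0, 0, 2, 0, 1, 0, 0, 0, 0, 1, 0, 0], [(8, 1, (-1))], [(8, (-6)), (1, 0)])]

def certs24_2 : List Cert :=
  [([0, 14, 1, 1, 0, 0, 1, 0, 0, 0, 1, 1, 0, 0, 1, 0, 0, 0], [], [(14, (-1))]),
   ([0, 14, 2, 0, 0, 0, 0, 0, 1, 1, 0, 0, 1, 1, 0, 0, 0, 0], [], [(13, (-1))]),
   ([0, 15, 0, 0, 1, 0, 1, 0, 0, 0, 1, 0, 1, 1, 0, 0, 0, 0], [], [(12, (-1))])]

/-- Certificates for `s = 24`. -/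
def certs24 : List Cert :=
  certs24_0 ++ certs24_1 ++ certs24_2

def certs26_0 : List Cert :=
  [([0, 10, 6, 0, 1, 0, 0, 0, 0, 1, 1, 0, 0, 0, 0, 0, 0, 1], [(9, 1, (-1))], [(9, (-2)), (1, 0)]),
   ([0, 10, 6, 1, 0, 0, 0, 0, 0, 0, 1, 1, 0, 0, 0, 0, 1, 0], [(10, 1, (-1))], [(10, (-9)), (1, 0)]),
   ([0, 11, 3, 3, 0, 0, 0, 0, 0, 1, 1, 0, 0, 0, 0, 0, 0, 1], [(9, 1, (-1))], [(9, (-3)), (1, 0)]),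
   ([0, 11, 5, 0, 0, 0, 1, 0, 1, 0, 1, 0, 0, 0, 0, 0, 0, 1], [(8, 1, (-1))], [(8, (-3)), (1, 0)]),
   ([0, 12, 3, 1, 0, 0, 0, 2, 0, 0, 1, 0, 0, 0, 0, 0, 0, 1], [(7, 1, (-1))], [(7, (-3)), (1, 0)]),
   ([0, 13, 1, 1, 1, 1, 0, 0, 1, 0, 1, 0, 0, 0, 0, 0, 0, 1], [(8, 1, (-1))], [(8, (-5)), (1, 0)]),
   ([0, 13, 1, 2, 1, 0, 0, 0, 0, 0, 1, 0, 1, 0, 0, 1, 0, 0], [(10, 1, (-1))], [(10, (-9)), (1, 0)]),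
   ([0, 13, 2, 0, 0, 1, 1, 1, 0, 0, 1, 0, 0, 0, 0, 0, 0, 1], [(7, 1, (-1))], [(7, (-5)), (1, 0)])]

def certs26_1 : List Cert :=
  [([0, 13, 2, 0, 1, 1, 0, 0, 0, 1, 0, 1, 0, 0, 0, 0, 1, 0], [(9, 1, (-1))], [(9, (-8)), (1, 0)]),
   ([0, 13, 2, 1, 0, 0, 0, 1, 1, 0, 0, 1, 0, 0, 0, 0, 1, 0], [(8, 1, (-1))], [(8, (-4)), (1, 0)]),
   ([0, 13, 2, 1, 0, 1, 0, 0, 0, 0, 1, 0, 0, 1, 1, 0, 0, 0], [(10, 1, (-1))], [(10, (-9)), (1, 0)]),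
   ([0, 13, 3, 0, 0, 0, 0, 1, 0, 1, 0, 0, 0, 1, 1, 0, 0, 0], [], [(14, (-1))]),
   ([0, 14, 0, 0, 2, 0, 1, 1, 0, 0, 1, 0, 0, 0, 0, 0, 0, 1], [], [(17, (-1))]),
   ([0, 14, 0, 0, 3, 0, 0, 0, 0, 1, 0, 1, 0, 0, 0, 0, 1, 0], [], [(16, (-1))]),
   ([0, 14, 0, 1, 0, 0, 3, 0, 0, 0, 1, 0, 0, 0, 0, 0, 0, 1], [], [(17, (-1))]),
   ([0, 14, 0, 1, 2, 0, 0, 0, 0, 0, 1, 0, 0, 1, 1, 0, 0, 0], [], [(14, (-1))])]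

def certs26_2 : List Cert :=
  [([0, 14, 1, 0, 0, 1, 1, 0, 1, 0, 0, 1, 0, 0, 0, 0, 1, 0], [], [(16, (-1))]),
   ([0, 14, 1, 0, 1, 0, 1, 0, 0, 1, 0, 0, 1, 0, 0, 1, 0, 0], [(9, 1, (-1))], [(9, (-8)), (1, 0)]),
   ([0, 14, 1, 1, 0, 0, 0, 0, 2, 0, 0, 0, 0, 1, 1, 0, 0, 0], [], [(14, (-1))]),
   ([0, 15, 0, 0, 0, 0, 2, 0, 1, 0, 0, 0, 1, 0, 0, 1, 0, 0], [], [(15, (-1))])]

/-- Certificates for `s = 26`. -/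
def certs26 : List Cert :=
  certs26_0 ++ certs26_1 ++ certs26_2

def certs28_0 : List Cert :=
  [([0, 9, 7, 1, 0, 0, 0, 0, 0, 1, 0, 0, 1, 0, 0, 0, 0, 1], [(9, 1, (-1))], [(9, (-8)), (1, 0)]),
   ([0, 12, 2, 2, 0, 1, 0, 0, 1, 0, 0, 0, 1, 0, 0, 0, 0, 1], [(8, 1, (-1))], [(8, (-7)), (1, 0)]),
   ([0, 12, 2, 2, 1, 0, 0, 0, 0, 1, 0, 0, 0, 1, 0, 0, 1, 0], [(9, 1, (-1))], [(9, (-8)), (1, 0)]),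
   ([0, 12, 3, 1, 0, 1, 0, 0, 0, 1, 0, 0, 0, 0, 1, 1, 0, 0], [(9, 1, (-1))], [(9, (-8)), (1, 0)]),
   ([0, 13, 0, 2, 2, 0, 0, 0, 1, 0, 0, 0, 1, 0, 0, 0, 0, 1], [], [(17, (-1))]),
   ([0, 13, 1, 1, 1, 0, 1, 1, 0, 0, 0, 0, 1, 0, 0, 0, 0, 1], [(7, 1, (-1))], [(7, (-3)), (1, 0)]),
   ([0, 13, 1, 1, 2, 0, 0, 0, 0, 1, 0, 0, 0, 0, 1, 1, 0, 0], [(9, 1, (-1))], [(9, (-8)), (1, 0)]),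
   ([0, 13, 1, 2, 0, 0, 1, 0, 1, 0, 0, 0, 0, 1, 0, 0, 1, 0], [(8, 1, (-1))], [(8, (-7)), (1, 0)])]

def certs28_1 : List Cert :=
  [([0, 13, 2, 0, 0, 2, 0, 0, 1, 0, 0, 0, 0, 1, 0, 0, 1, 0], [(8, 1, (-1))], [(8, (-7)), (1, 0)]),
   ([0, 13, 2, 0, 1, 0, 0, 2, 0, 0, 0, 0, 0, 1, 0, 0, 1, 0], [(7, 1, (-1))], [(7, (-6)), (1, 0)]),
   ([0, 14, 0, 0, 1, 1, 2, 0, 0, 0, 0, 0, 1, 0, 0, 0, 0, 1], [], [(17, (-1))]),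
   ([0, 14, 0, 0, 2, 1, 0, 0, 1, 0, 0, 0, 0, 1, 0, 0, 1, 0], [], [(16, (-1))]),
   ([0, 14, 0, 1, 1, 0, 1, 0, 1, 0, 0, 0, 0, 0, 1, 1, 0, 0], [], [(14, (-1))]),
   ([0, 14, 1, 0, 0, 0, 2, 1, 0, 0, 0, 0, 0, 0, 1, 1, 0, 0], [], [(15, (-1))])]

/-- Certificates for `s = 28`. -/
def certs28 : List Cert :=
  certs28_0 ++ certs28_1

def certs30_0 : List Cert :=
  [([0, 9, 6, 2, 0, 0, 0, 0, 1, 0, 0, 0, 0, 0, 1, 0, 0, 1], [(8, 1, (-1))], [(8, (-7)), (1, 0)]),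
   ([0, 10, 5, 1, 1, 0, 0, 0, 1, 0, 0, 0, 0, 0, 0, 1, 1, 0], [(8, 1, (-1))], [(8, (-7)), (1, 0)]),
   ([0, 10, 6, 0, 0, 0, 1, 1, 0, 0, 0, 0, 0, 0, 0, 1, 1, 0], [(7, 1, (-1))], [(7, (-6)), (1, 0)]),
   ([0, 11, 2, 4, 0, 0, 0, 0, 1, 0, 0, 0, 0, 0, 0, 1, 1, 0], [(8, 1, (-1))], [(8, (-7)), (1, 0)]),
   ([0, 11, 3, 2, 0, 1, 0, 1, 0, 0, 0, 0, 0, 0, 1, 0, 0, 1], [(7, 1, (-1))], [(7, (-6)), (1, 0)]),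
   ([0, 11, 4, 0, 1, 0, 2, 0, 0, 0, 0, 0, 0, 0, 1, 0, 0, 1], [(6, 1, (-1))], [(6, (-5)), (1, 0)]),
   ([0, 12, 1, 2, 2, 0, 0, 1, 0, 0, 0, 0, 0, 0, 1, 0, 0, 1], [(7, 1, (-1))], [(7, (-6)), (1, 0)]),
   ([0, 12, 1, 3, 0, 0, 2, 0, 0, 0, 0, 0, 0, 0, 1, 0, 0, 1], [(6, 1, (-1))], [(6, (-5)), (1, 0)])]

def certs30_1 : List Cert :=
  [([0, 12, 2, 1, 0, 2, 1, 0, 0, 0, 0, 0, 0, 0, 1, 0, 0, 1], [(6, 1, (-1))], [(6, (-5)), (1, 0)]),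
   ([0, 12, 2, 1, 1, 1, 0, 1, 0, 0, 0, 0, 0, 0, 0, 1, 1, 0], [(7, 1, (-1))], [(7, (-6)), (1, 0)]),
   ([0, 13, 0, 1, 2, 1, 1, 0, 0, 0, 0, 0, 0, 0, 1, 0, 0, 1], [], [(17, (-1))]),
   ([0, 13, 0, 1, 3, 0, 0, 1, 0, 0, 0, 0, 0, 0, 0, 1, 1, 0], [(7, 1, (-1))], [(7, (-6)), (1, 0)]),
   ([0, 13, 0, 2, 1, 0, 2, 0, 0, 0, 0, 0, 0, 0, 0, 1, 1, 0], [(6, 1, (-1))], [(6, (-5)), (1, 0)]),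
   ([0, 13, 1, 0, 1, 2, 1, 0, 0, 0, 0, 0, 0, 0, 0, 1, 1, 0], [], [(16, (-1))])]

/-- Certificates for `s = 30`. -/
def certs30 : List Cert :=
  certs30_0 ++ certs30_1

def certs32_0 : List Cert :=
  [([0, 7, 9, 0, 1, 0, 1, 0, 0, 0, 0, 0, 0, 0, 0, 0, 1, 1], [(6, 1, (-1))], [(6, (-5)), (1, 0)]),
   ([0, 8, 6, 3, 0, 0, 1, 0, 0, 0, 0, 0, 0, 0, 0, 0, 1, 1], [(6, 1, (-1))], [(6, (-5)), (1, 0)]),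
   ([0, 8, 7, 1, 0, 2, 0, 0, 0, 0, 0, 0, 0, 0, 0, 0, 1, 1], [(5, 1, (-1))], [(5, (-4)), (1, 0)]),
   ([0, 9, 5, 1, 2, 1, 0, 0, 0, 0, 0, 0, 0, 0, 0, 0, 1, 1], [(5, 1, (-1))], [(5, (-4)), (1, 0)]),
   ([0, 10, 2, 4, 1, 1, 0, 0, 0, 0, 0, 0, 0, 0, 0, 0, 1, 1], [(5, 1, (-1))], [(5, (-4)), (1, 0)]),
   ([0, 10, 3, 1, 4, 0, 0, 0, 0, 0, 0, 0, 0, 0, 0, 0, 1, 1], [(4, 1, (-1))], [(4, (-3)), (1, 0)]),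
   ([0, 11, 0, 4, 3, 0, 0, 0, 0, 0, 0, 0, 0, 0, 0, 0, 1, 1], [], [(17, (-1))])]

/-- Certificates for `s = 32`. -/
def certs32 : List Cert :=
  certs32_0

/-- All certificates. -/
def certs : ℕ → List Cert
  | 6 => certs6
  | 8 => certs8
  | 10 => certs10
  | 12 => certs12
  | 14 => certs14
  | 16 => certs16
  | 18 => certs18
  | 20 => certs20
  | 22 => certs22
  | 24 => certs24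
  | 26 => certs26
  | 28 => certs28
  | 30 => certs30
  | 32 => certs32
  | _ => []

/-- The exceptional degree distribution. -/
def spec : List ℕ := [0, 8, 7, 2, 1, 2, 0, 0, 0, 0, 0, 0, 0, 0, 0, 0, 0, 0]

/-- Certificates for the exceptional degree distribution, according to the numbers `p` and `q` of
neighbours of class 5 and of class 3 of the unique vertex of class 4. -/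
def specCert : ℕ → ℕ → Cert
  | 0, 0 => (spec, [(5, 4, (-8)), (5, 3, (-16)), (5, 2, (-24)), (5, 1, (-32)), (4, 3, 45), (4, 2, (-9)), (4, 1, 45), (3, 2, (-15)), (3, 1, (-23)), (2, 1, 54)], [(5, (-152)), (4, (-45)), (3, (-45)), (2, 78), (1, (-22))])
  | 0, 1 => (spec, [(5, 4, 1), (5, 3, (-14)), (5, 2, 3), (5, 1, 4), (4, 3, (-7)), (4, 2, 10), (4, 1, 35), (3, 2, (-7)), (3, 1, (-14)), (2, 1, 17)], [(5, 19), (4, 58), (3, (-21)), (2, 14), (1, (-21))])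
  | 0, 2 => (spec, [(5, 4, (-7)), (5, 3, (-14)), (5, 2, (-21)), (5, 1, (-28)), (4, 3, (-125)), (4, 2, 17), (4, 1, 103), (3, 2, (-38)), (3, 1, (-76)), (2, 1, 55)], [(5, (-133)), (4, (-27)), (3, (-27)), (2, 76), (1, (-27))])
  | 1, 0 => (spec, [(5, 4, 5), (5, 3, 4), (5, 2, 3), (5, 1, 2), (4, 3, 3), (4, 2, 2), (3, 2, 1), (3, 1, 3), (2, 1, 1)], [(5, 17), (4, (-3)), (3, 3), (2, (-2)), (1, (-3))])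
  | 1, 1 => (spec, [], [(4, (-1))])
  | 1, 2 => (spec, [], [(4, (-1))])
  | 2, 0 => (spec, [], [(4, (-1))])
  | 2, 1 => (spec, [], [(4, (-1))])
  | 2, 2 => (spec, [], [(4, (-1))])
  | _, _ => (spec, [], [])

/-- Lower bounds in the exceptional case. -/
def specLo (p q t j : ℕ) : ℕ :=
  bif Nat.beq t 4 then (bif Nat.beq j 5 then p else bif Nat.beq j 3 then q else 0) else 0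

/-- Upper bounds in the exceptional case. -/
def specHi (p q t j : ℕ) : ℕ :=
  bif Nat.beq t 4 then
    (bif Nat.beq j 5 then p else bif Nat.beq j 3 then q else others spec t j)
  else others spec t j

theorem validSpec : ∀ p < 3, ∀ q < 3,
    check2 (specLo p q) (specHi p q) 6 (specCert p q) = true := by
  decide +kernel

theorem specCert_fst : ∀ p < 3, ∀ q < 3, (specCert p q).1 = spec := by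
  decide +kernel

/-- Membership of the count vector in the list of treated vectors. -/
def known (s : ℕ) (a : List ℕ) : Bool :=
  (certs s).any (fun C => leq C.1 a) || (Nat.beq s 6 && leq spec a)

/-- Full count vector when there is a vertex with value 0. -/
def buildL (s : ℕ) (F : List ℕ) : List ℕ :=
  (List.range 18).map fun t =>
    F.getD t 0 + (bif Nat.beq t 0 then 1 else 0) + (bif Nat.beq t s then 1 else 0)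

/-- Full count vector when there is a vertex with value 1 and none with value 0. -/
def buildM (a b : ℕ) (F : List ℕ) : List ℕ :=
  (List.range 18).map fun t =>
    (bif Nat.beq t 0 then 0 else F.getD (t - 1) 0) + (bif Nat.beq t 1 then 1 else 0)
      + (bif Nat.beq t a then 1 else 0) + (bif Nat.beq t b then 1 else 0)

theorem valid : ∀ i < 14, (certs (2 * i + 6)).all (check (2 * i + 6)) = true := by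
  decide +kernel

theorem searchL : ∀ i < 6,
    srch (fun F => known (2 * i + 6) (buildL (2 * i + 6) F)) 18 18 36
      (20 * (2 * i + 6) - (2 * i + 6) * (2 * i + 6)) [] = true := by
  decide +kernel

theorem searchM : ∀ i < 14, ∀ a < 18, 2 * i + 7 < 2 * a → a < 2 * i + 7 →
    52 + a * a + (2 * i + 7 - a) * (2 * i + 7 - a) ≤ 20 * (2 * i + 6) →
    srch (fun F => known (2 * i + 6) (buildM a (2 * i + 7 - a) F)) 17 17 17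
      (20 * (2 * i + 6) - (52 + a * a + (2 * i + 7 - a) * (2 * i + 7 - a))) [] = true := by
  decide +kernel

end Pool.Agent.Helper54.PseudoData
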