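import Pool.Agent.Helper54.PseudoData

/-!
Graph-theoretic part of the nonexistence proof for MP_1ed35b_co.
-/

open Finset

namespace Pool.Agent.Helper54.PseudoGraph

open Pool.Agent.Helper54.PseudoSearch Pool.Agent.Helper54.PseudoData

set_option linter.unusedSectionVars false

variable {V : Type} [Fintype V] [DecidableEq V]

theorem beq_of_eq {a b : ℕ} (h : a = b) : Nat.beq a b = true := by rw [Nat.beq_eq]; exact h

theorem eq_of_beq {a b : ℕ} (h : Nat.beq a b = true) : a = b := by rwa [Nat.beq_eq] at h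

theorem beq_of_ne {a b : ℕ} (h : a ≠ b) : Nat.beq a b = false := by
  rw [← Bool.not_eq_true, Nat.beq_eq]; exact h

theorem cond_beq (a b x y : ℕ) : (bif Nat.beq a b then x else y) = if a = b then x else y := by
  by_cases h : a = b
  · rw [beq_of_eq h, if_pos h, cond_true]
  · rw [beq_of_ne h, if_neg h, cond_false]

/-- Number of vertices in `S` with value `t`. -/
def cnt (Y : V → ℕ) (S : Finset V) (t : ℕ) : ℕ := (S.filter fun v => Y v = t).card

theorem sum_by_value {R : Type} [CommSemiring R] (Y : V → ℕ) (S : Finset V) {T : ℕ}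
    (hY : ∀ v ∈ S, Y v < T) (g : ℕ → R) :
    ∑ v ∈ S, g (Y v) = ∑ t ∈ range T, (cnt Y S t : R) * g t := by
  rw [← Finset.sum_fiberwise_of_maps_to (s := S) (t := range T) (g := Y)
    (fun v hv => mem_range.2 (hY v hv))]
  apply Finset.sum_congr rfl
  intro t _
  rw [Finset.sum_congr rfl (g := fun _ => g t), Finset.sum_const, nsmul_eq_mul]
  · rfl
  · intro v hv
    rw [(mem_filter.1 hv).2]

/-- The system of conditions satisfied by the complement of a pseudo 16-regular graph. -/
structure Sys (H : SimpleGraph V) [DecidableRel H.Adj] (Y : V → ℕ) (s : ℕ) : Prop where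
  card : Fintype.card V = 20
  lt : ∀ v, Y v < 18
  deg : ∀ v, (H.neighborFinset v).card = Y v + 1
  nbr : ∀ v, ∑ u ∈ H.neighborFinset v, Y u = s + Y v
  sum : ∑ v, Y v = s + 36
  sq : ∑ v, Y v * Y v = 20 * s

variable {H : SimpleGraph V} [DecidableRel H.Adj] {Y : V → ℕ} {s : ℕ}

theorem sum_antisymm (H : SimpleGraph V) [DecidableRel H.Adj] (Y : V → ℕ) (W : ℕ → ℕ → ℤ)
    (hW : ∀ i j, W i j = - W j i) :
    ∑ v, ∑ u ∈ H.neighborFinset v, W (Y v) (Y u) = 0 := by
  have h1 : ∀ v, ∑ u ∈ H.neighborFinset v, W (Y v) (Y u)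
      = ∑ u, if H.Adj v u then W (Y v) (Y u) else 0 := by
    intro v
    rw [← Finset.sum_filter]
    apply Finset.sum_congr _ (fun _ _ => rfl)
    ext u
    simp
  have h2 : ∑ v, ∑ u ∈ H.neighborFinset v, W (Y v) (Y u)
      = - ∑ v, ∑ u ∈ H.neighborFinset v, W (Y v) (Y u) := by
    calc ∑ v, ∑ u ∈ H.neighborFinset v, W (Y v) (Y u)
        = ∑ v, ∑ u, (if H.Adj v u then W (Y v) (Y u) else 0) :=
          Finset.sum_congr rfl fun v _ => h1 v
      _ = ∑ u, ∑ v, (if H.Adj v u then W (Y v) (Y u) else 0) := Finset.sum_comm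
      _ = ∑ u, - ∑ v, (if H.Adj u v then W (Y u) (Y v) else 0) := by
          apply Finset.sum_congr rfl
          intro u _
          rw [← Finset.sum_neg_distrib]
          apply Finset.sum_congr rfl
          intro v _
          by_cases h : H.Adj u v
          · rw [if_pos h, if_pos h.symm, hW]
          · rw [if_neg h, if_neg fun h' => h h'.symm, neg_zero]
      _ = - ∑ v, ∑ u ∈ H.neighborFinset v, W (Y v) (Y u) := by
          rw [Finset.sum_neg_distrib]
          congr 1
          exact Finset.sum_congr rfl fun v _ => (h1 v).symm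
  omega

theorem check2_false (hs : Sys H Y s) {lo hi : ℕ → ℕ → ℕ} {C : Cert}
    (hC : check2 lo hi s C = true)
    (hcnt : ∀ t < 18, C.1.getD t 0 = cnt Y univ t)
    (hlo : ∀ v, ∀ t < 18, lo (Y v) t ≤ cnt Y (H.neighborFinset v) t)
    (hhi : ∀ v, ∀ t < 18, cnt Y (H.neighborFinset v) t ≤ hi (Y v) t) : False := by
  unfold check2 at hC
  rw [Bool.and_eq_true, allBelow_iff, decide_eq_true_eq, sumBelow_eq] at hC
  obtain ⟨hC1, hC2⟩ := hC
  have hv : ∀ v, ∑ u ∈ H.neighborFinset v, wt C.2.1 (Y v) (Y u) ≤ bt C.2.2 (Y v) := by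
    intro v
    have h1 := hC1 (Y v) (hs.lt v)
    have hpos : C.1.getD (Y v) 0 ≠ 0 := by
      rw [hcnt _ (hs.lt v)]
      apply Finset.card_ne_zero_of_mem (a := v)
      simp
    have h2 : Nat.beq (C.1.getD (Y v) 0) 0 = false := by
      rw [← Bool.not_eq_true, Nat.beq_eq]
      exact hpos
    rw [h2, cond_false, Bool.or_eq_true, Bool.and_eq_true, allBelow_iff, decide_eq_true_eq] at h1
    rw [sum_by_value Y (H.neighborFinset v) (fun u _ => hs.lt u) (fun j => wt C.2.1 (Y v) j)]
    rcases h1 with ⟨h3, h4⟩ | h3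
    · rw [Finset.sum_eq_zero]
      · exact h4
      · intro t ht
        have := h3 t (mem_range.1 ht)
        rw [decide_eq_true_eq] at this
        rw [this, mul_zero]
    · apply typ_sound h3 _ (fun t ht => hlo v t ht) (fun t ht => hhi v t ht)
      · have := sum_by_value (R := ℕ) Y (H.neighborFinset v) (fun u _ => hs.lt u) (fun _ => 1)
        rw [Finset.sum_const, smul_eq_mul, mul_one, hs.deg v] at this
        simp only [Nat.cast_id, mul_one] at this
        exact this.symm
      · have := sum_by_value (R := ℕ) Y (H.neighborFinset v) (fun u _ => hs.lt u) (fun j => j)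
        rw [hs.nbr v] at this
        simp only [Nat.cast_id] at this
        exact this.symm
  have h0 := sum_antisymm H Y (wt C.2.1) (wt_antisymm C.2.1)
  have h1 : ∑ v, ∑ u ∈ H.neighborFinset v, wt C.2.1 (Y v) (Y u) ≤ ∑ v, bt C.2.2 (Y v) :=
    Finset.sum_le_sum fun v _ => hv v
  rw [sum_by_value Y univ (fun u _ => hs.lt u) (fun j => bt C.2.2 j)] at h1
  have h2 : ∑ t ∈ range 18, (cnt Y univ t : ℤ) * bt C.2.2 t
      = ∑ t ∈ range 18, (C.1.getD t 0 : ℤ) * bt C.2.2 t := by
    apply Finset.sum_congr rfl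
    intro t ht
    rw [hcnt t (mem_range.1 ht)]
  rw [h2] at h1
  rw [h0] at h1
  exact absurd (lt_of_le_of_lt h1 hC2) (lt_irrefl _)

theorem cnt_nbr_le (hs : Sys H Y s) {a : List ℕ} (ha : ∀ t < 18, a.getD t 0 = cnt Y univ t)
    (v : V) (t : ℕ) (ht : t < 18) : cnt Y (H.neighborFinset v) t ≤ others a (Y v) t := by
  unfold others
  rw [ha t ht]
  by_cases h : t = Y v
  · have : Nat.beq t (Y v) = true := beq_of_eq h
    rw [this, cond_true]
    unfold cnt
    rw [← Finset.card_erase_of_mem (a := v) (by simp [h])]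
    apply Finset.card_le_card
    intro u hu
    rw [mem_filter, SimpleGraph.mem_neighborFinset] at hu
    rw [mem_erase, mem_filter]
    exact ⟨fun h' => hu.1.ne h'.symm, mem_univ _, hu.2⟩
  · have : Nat.beq t (Y v) = false := by
      rw [← Bool.not_eq_true, Nat.beq_eq]
      exact h
    rw [this, cond_false, Nat.sub_zero]
    apply Finset.card_le_card
    apply Finset.filter_subset_filter
    exact subset_univ _

theorem check_false (hs : Sys H Y s) {C : Cert} (hC : check s C = true)
    (hcnt : ∀ t < 18, C.1.getD t 0 = cnt Y univ t) : False :=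
  check2_false hs hC hcnt (fun _ _ _ => Nat.zero_le _) (fun v t ht => cnt_nbr_le hs hcnt v t ht)

theorem spec_false (hs : Sys H Y 6) (hcnt : ∀ t < 18, spec.getD t 0 = cnt Y univ t) : False := by
  have h4 : cnt Y univ 4 = 1 := by rw [← hcnt 4 (by norm_num)]; rfl
  obtain ⟨v0, hv0⟩ := Finset.card_eq_one.1 h4
  have hv0' : Y v0 = 4 := by
    have : v0 ∈ univ.filter fun v => Y v = 4 := by rw [hv0]; simp
    exact (mem_filter.1 this).2
  have huniq : ∀ v, Y v = 4 → v = v0 := by
    intro v hv
    have : v ∈ univ.filter fun v => Y v = 4 := by simp [hv]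
    rw [hv0] at this
    exact mem_singleton.1 this
  set p := cnt Y (H.neighborFinset v0) 5 with hp
  set q := cnt Y (H.neighborFinset v0) 3 with hq
  have hp3 : p < 3 := by
    have := cnt_nbr_le hs hcnt v0 5 (by norm_num)
    have h2 : others spec (Y v0) 5 = 2 := by rw [hv0']; rfl
    omega
  have hq3 : q < 3 := by
    have := cnt_nbr_le hs hcnt v0 3 (by norm_num)
    have h2 : others spec (Y v0) 3 = 2 := by rw [hv0']; rfl
    omega
  refine check2_false hs (validSpec p hp3 q hq3) ?_ ?_ ?_
  · intro t ht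
    rw [specCert_fst p hp3 q hq3]
    exact hcnt t ht
  · intro v t ht
    unfold specLo
    by_cases hv : Y v = 4
    · have : Nat.beq (Y v) 4 = true := beq_of_eq hv
      rw [this, cond_true, huniq v hv]
      by_cases h5 : t = 5
      · rw [h5, Nat.beq_refl, cond_true]
      · have h5' : Nat.beq t 5 = false := by
          rw [← Bool.not_eq_true, Nat.beq_eq]; exact h5
        rw [h5', cond_false]
        by_cases h3 : t = 3
        · rw [h3, Nat.beq_refl, cond_true]
        · have h3' : Nat.beq t 3 = false := by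
            rw [← Bool.not_eq_true, Nat.beq_eq]; exact h3
          rw [h3', cond_false]
          exact Nat.zero_le _
    · have : Nat.beq (Y v) 4 = false := by
        rw [← Bool.not_eq_true, Nat.beq_eq]; exact hv
      rw [this, cond_false]
      exact Nat.zero_le _
  · intro v t ht
    unfold specHi
    by_cases hv : Y v = 4
    · have : Nat.beq (Y v) 4 = true := beq_of_eq hv
      rw [this, cond_true]
      by_cases h5 : t = 5
      · rw [h5, Nat.beq_refl, cond_true, huniq v hv]
      · have h5' : Nat.beq t 5 = false := by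
          rw [← Bool.not_eq_true, Nat.beq_eq]; exact h5
        rw [h5', cond_false]
        by_cases h3 : t = 3
        · rw [h3, Nat.beq_refl, cond_true, huniq v hv]
        · have h3' : Nat.beq t 3 = false := by
            rw [← Bool.not_eq_true, Nat.beq_eq]; exact h3
          rw [h3', cond_false]
          exact cnt_nbr_le hs hcnt v t ht
    · have : Nat.beq (Y v) 4 = false := by
        rw [← Bool.not_eq_true, Nat.beq_eq]; exact hv
      rw [this, cond_false]
      exact cnt_nbr_le hs hcnt v t ht

theorem known_false {i : ℕ} (hi : i < 14) (hs : Sys H Y (2 * i + 6)) {a : List ℕ}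
    (ha : known (2 * i + 6) a = true) (hcnt : ∀ t < 18, a.getD t 0 = cnt Y univ t) : False := by
  unfold known at ha
  rw [Bool.or_eq_true, List.any_eq_true, Bool.and_eq_true] at ha
  rcases ha with ⟨C, hC, hCa⟩ | ⟨h6, hCa⟩
  · have := eq_of_leq hCa
    subst this
    have h1 := valid i hi
    rw [List.all_eq_true] at h1
    exact check_false hs (h1 C hC) hcnt
  · have := eq_of_leq hCa
    subst this
    have h6' : 2 * i + 6 = 6 := eq_of_beq h6
    rw [h6'] at hs
    exact spec_false hs hcnt

theorem getD_map_range (f : ℕ → ℕ) {n t : ℕ} (ht : t < n) :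
    ((List.range n).map f).getD t 0 = f t := by
  simp [List.getD, ht]

theorem cnt_univ_split (Y : V → ℕ) (S : Finset V) (t : ℕ) :
    cnt Y univ t = cnt Y Sᶜ t + cnt Y S t := by
  unfold cnt
  rw [← Finset.card_union_of_disjoint]
  · congr 1
    ext v
    simp only [mem_filter, mem_univ, true_and, mem_union, mem_compl]
    tauto
  · rw [Finset.disjoint_left]
    intro v hv hv'
    rw [mem_filter] at hv hv'
    exact (mem_compl.1 hv.1) hv'.1

theorem cnt_pair {Y : V → ℕ} {v x : V} (hne : v ≠ x) (t : ℕ) :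
    cnt Y {v, x} t = (if t = Y v then 1 else 0) + (if t = Y x then 1 else 0) := by
  unfold cnt
  rw [Finset.card_filter, Finset.sum_pair hne]
  simp only [eq_comm]

theorem cnt_triple {Y : V → ℕ} {v x y : V} (h1 : v ≠ x) (h2 : v ≠ y) (h3 : x ≠ y) (t : ℕ) :
    cnt Y {v, x, y} t
      = (if t = Y v then 1 else 0) + (if t = Y x then 1 else 0) + (if t = Y y then 1 else 0) := by
  unfold cnt
  rw [Finset.card_filter, Finset.sum_insert (by simp [h1, h2]), Finset.sum_pair h3]
  simp only [eq_comm, add_assoc]

/-- There is no vertex with value 0. -/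
theorem no_zero {i : ℕ} (hi : i < 14) (hs : Sys H Y (2 * i + 6)) (v : V) : Y v ≠ 0 := by
  intro hv
  have hdeg := hs.deg v
  rw [hv] at hdeg
  obtain ⟨x, hx⟩ := Finset.card_eq_one.1 hdeg
  have hnbr := hs.nbr v
  rw [hx, Finset.sum_singleton, hv, add_zero] at hnbr
  have hxlt := hs.lt x
  have hne : v ≠ x := by
    rintro rfl
    omega
  have hi6 : i < 6 := by omega
  have hsearch := searchL i hi6
  set s := 2 * i + 6 with hsdef
  let f : ℕ → ℕ := fun t => cnt Y ({v, x} : Finset V)ᶜ t
  have hf : ∀ t, cnt Y univ t = f t + ((if t = 0 then 1 else 0) + (if t = s then 1 else 0)) := by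
    intro t
    rw [cnt_univ_split Y {v, x} t, cnt_pair hne, hv, hnbr]
  have hsum : ∀ g : ℕ → ℕ, ∑ w, g (Y w) = ∑ t ∈ range 18, f t * g t + (g 0 + g s) := by
    intro g
    rw [← Finset.sum_compl_add_sum {v, x}, Finset.sum_pair hne, hv, hnbr,
      sum_by_value Y ({v, x} : Finset V)ᶜ (fun u _ => hs.lt u) g]
    simp only [f, Nat.cast_id]
  have h1 : ∑ t ∈ range 18, f t = 18 := by
    have := hsum (fun _ => 1)
    simp only [Finset.sum_const, Finset.card_univ, hs.card, smul_eq_mul, mul_one] at this
    omega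
  have h2 : ∑ t ∈ range 18, f t * t = 36 := by
    have := hsum (fun t => t)
    rw [hs.sum] at this
    omega
  have h3 : ∑ t ∈ range 18, f t * t * t = 20 * s - s * s := by
    have := hsum (fun t => t * t)
    rw [hs.sq] at this
    simp only [← mul_assoc] at this
    omega
  have hleaf := srch_sound hsearch f h1 h2 h3
  rw [List.append_nil] at hleaf
  refine known_false hi hs hleaf ?_
  intro t ht
  unfold buildL
  rw [getD_map_range _ ht, getD_map_range _ ht, hf t, cond_beq, cond_beq, add_assoc]

/-- There is no vertex with value 1. -/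
theorem no_one {i : ℕ} (hi : i < 14) (hs : Sys H Y (2 * i + 6)) (v : V) : Y v ≠ 1 := by
  intro hv
  have hdeg := hs.deg v
  rw [hv] at hdeg
  obtain ⟨x, y, hxy, hx⟩ := Finset.card_eq_two.1 hdeg
  have hnbr := hs.nbr v
  rw [hx, Finset.sum_pair hxy, hv] at hnbr
  have hvx : v ≠ x := by
    rintro rfl
    have : v ∈ H.neighborFinset v := by rw [hx]; simp
    exact H.loopless.irrefl v ((H.mem_neighborFinset v v).1 this)
  have hvy : v ≠ y := by
    rintro rfl
    have : v ∈ H.neighborFinset v := by rw [hx]; simp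
    exact H.loopless.irrefl v ((H.mem_neighborFinset v v).1 this)
  -- we may assume `Y y < Y x`
  wlog hlt : Y y < Y x generalizing x y
  · refine this y x hxy.symm ?_ (by rw [add_comm]; exact hnbr) hvy hvx (by omega)
    rw [hx, Finset.pair_comm]
  have hy0 := no_zero hi hs y
  have hxlt := hs.lt x
  have hb : Y y = 2 * i + 7 - Y x := by omega
  have hsearch := searchM i hi (Y x) hxlt (by omega) (by omega)
  rw [← hb] at hsearch
  let f : ℕ → ℕ := fun t => cnt Y ({v, x, y} : Finset V)ᶜ t
  have hf : ∀ t, cnt Y univ t = f t + ((if t = 1 then 1 else 0) + (if t = Y x then 1 else 0)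
      + (if t = Y y then 1 else 0)) := by
    intro t
    rw [cnt_univ_split Y {v, x, y} t, cnt_triple hvx hvy hxy, hv]
  have hsum : ∀ g : ℕ → ℕ, ∑ w, g (Y w)
      = ∑ t ∈ range 18, f t * g t + (g 1 + (g (Y x) + g (Y y))) := by
    intro g
    rw [← Finset.sum_compl_add_sum {v, x, y}, Finset.sum_insert (by simp [hvx, hvy]),
      Finset.sum_pair hxy, hv, sum_by_value Y ({v, x, y} : Finset V)ᶜ (fun u _ => hs.lt u) g]
    simp only [f, Nat.cast_id]
  have hf0 : f 0 = 0 := by
    show (Finset.filter (fun v => Y v = 0) ({v, x, y} : Finset V)ᶜ).card = 0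
    rw [Finset.card_eq_zero, Finset.filter_eq_empty_iff]
    intro w _
    exact no_zero hi hs w
  have h1 : ∑ t ∈ range 17, f (t + 1) = 17 := by
    have := hsum (fun _ => 1)
    simp only [Finset.sum_const, Finset.card_univ, hs.card, smul_eq_mul, mul_one] at this
    rw [Finset.sum_range_succ', hf0] at this
    omega
  have h2 : ∑ t ∈ range 17, f (t + 1) * t = 17 := by
    have := hsum (fun t => t)
    rw [hs.sum, Finset.sum_range_succ', hf0] at this
    simp only [mul_add, Finset.sum_add_distrib, mul_one, h1] at this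
    omega
  have h3 : ∑ t ∈ range 17, f (t + 1) * t * t + (52 + Y x * Y x + Y y * Y y)
      = 20 * (2 * i + 6) := by
    have := hsum (fun t => t * t)
    rw [hs.sq, Finset.sum_range_succ', hf0] at this
    have h4 : ∀ t, f (t + 1) * ((t + 1) * (t + 1))
        = f (t + 1) * t * t + 2 * (f (t + 1) * t) + f (t + 1) := by
      intro t; ring
    simp only [h4, Finset.sum_add_distrib, ← Finset.mul_sum, h1, h2] at this
    omega
  have hleaf := srch_sound (hsearch (by omega)) (fun t => f (t + 1)) h1 h2 (by omega)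
  rw [List.append_nil] at hleaf
  refine known_false hi hs hleaf ?_
  intro t ht
  unfold buildM
  rw [getD_map_range _ ht, hf t, cond_beq, cond_beq, cond_beq, cond_beq]
  by_cases ht0 : t = 0
  · subst ht0
    rw [if_pos rfl, hf0]
    ring
  · rw [if_neg ht0, getD_map_range _ (by omega), Nat.sub_add_cancel (by omega)]
    ring

/-- No graph satisfies the system, once there is a vertex with value at most 1. -/
theorem sys_false (hs : Sys H Y s) (hpos : 4 < s) (hex : ∃ v, Y v ≤ 1) : False := by
  -- parity of `s`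
  have heven : Even s := by
    have h1 : ∑ v, (Y v + 1) = 2 * H.edgeFinset.card := by
      rw [← SimpleGraph.sum_degrees_eq_twice_card_edges]
      apply Finset.sum_congr rfl
      intro v _
      rw [← hs.deg v, SimpleGraph.card_neighborFinset_eq_degree]
    rw [Finset.sum_add_distrib, hs.sum, Finset.sum_const, Finset.card_univ, hs.card] at h1
    simp only [smul_eq_mul, mul_one] at h1
    rw [Nat.even_iff]
    omega
  obtain ⟨v, hv⟩ := hex
  have hlt : s < 34 := by
    have hdeg := hs.deg v
    have hnbr := hs.nbr v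
    have h1 : ∑ u ∈ H.neighborFinset v, Y u ≤ ∑ u ∈ H.neighborFinset v, 17 :=
      Finset.sum_le_sum fun u _ => by have := hs.lt u; omega
    rw [Finset.sum_const, smul_eq_mul, hdeg, hnbr] at h1
    by_contra hge
    have : (Y v + 1) * 17 ≤ 34 := by
      calc (Y v + 1) * 17 ≤ 2 * 17 := Nat.mul_le_mul_right _ (by omega)
        _ = 34 := by norm_num
    omega
  obtain ⟨j, hj⟩ := heven
  obtain ⟨i, rfl⟩ : ∃ i, s = 2 * i + 6 := ⟨j - 3, by omega⟩
  have hi : i < 14 := by omega
  have h0 := no_zero hi hs v
  have h1 := no_one hi hs v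
  omega

end Pool.Agent.Helper54.PseudoGraph
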