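import Mathlib

/-!
Kernel-friendly search functions and their soundness, used for MP_1ed35b_co.
-/

namespace Pool.Agent.Helper54.PseudoSearch

/-- `p i` holds for all `i < n`. -/
def allBelow (p : ℕ → Bool) : ℕ → Bool
  | 0 => true
  | n + 1 => p n && allBelow p n

theorem allBelow_iff {p : ℕ → Bool} {n : ℕ} : allBelow p n = true ↔ ∀ i < n, p i = true := by
  induction n with
  | zero => simp [allBelow]
  | succ n ih =>
    simp only [allBelow, Bool.and_eq_true, ih]
    constructor
    · rintro ⟨h1, h2⟩ i hi
      rcases Nat.lt_succ_iff_lt_or_eq.1 hi with h | rfl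
      · exact h2 i h
      · exact h1
    · intro h
      exact ⟨h n (Nat.lt_succ_self n), fun i hi => h i (Nat.lt_succ_of_lt hi)⟩

/-- Sum of `g i` over `i < n`. -/
def sumBelow (g : ℕ → ℤ) : ℕ → ℤ
  | 0 => 0
  | n + 1 => sumBelow g n + g n

theorem sumBelow_eq (g : ℕ → ℤ) (n : ℕ) : sumBelow g n = ∑ i ∈ Finset.range n, g i := by
  induction n with
  | zero => simp [sumBelow]
  | succ n ih => rw [sumBelow, ih, Finset.sum_range_succ]

/-- Enumerate all count vectors `c` on values `< T` with `lo ≤ c ≤ hi`, total `e` and weighted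
total `S`, and check that the linear form `w` is at most `B` on each of them. -/
def typ (lo hi : ℕ → ℕ) (w : ℕ → ℤ) : ℕ → ℕ → ℕ → ℤ → Bool
  | 0, e, S, B => bif Nat.beq e 0 && Nat.beq S 0 then decide (0 ≤ B) else true
  | t + 1, e, S, B =>
    bif Nat.ble S (e * t) then
      allBelow (fun c =>
        bif Nat.ble c e && Nat.ble (c * t) S && Nat.ble (lo t) c then
          typ lo hi w t (e - c) (S - c * t) (B - c * w t)
        else true) (hi t + 1)
    else true

theorem typ_sound {lo hi : ℕ → ℕ} {w : ℕ → ℤ} {T e S : ℕ} {B : ℤ}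
    (h : typ lo hi w T e S B = true) (c : ℕ → ℕ)
    (hlo : ∀ t < T, lo t ≤ c t) (hhi : ∀ t < T, c t ≤ hi t)
    (he : ∑ t ∈ Finset.range T, c t = e) (hS : ∑ t ∈ Finset.range T, c t * t = S) :
    ∑ t ∈ Finset.range T, (c t : ℤ) * w t ≤ B := by
  induction T generalizing e S B with
  | zero =>
    simp only [Finset.range_zero, Finset.sum_empty] at he hS ⊢
    subst he hS
    simpa [typ] using h
  | succ T ih =>
    rw [Finset.sum_range_succ] at he hS ⊢
    have h1 : ∑ t ∈ Finset.range T, c t * t ≤ (∑ t ∈ Finset.range T, c t) * T := by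
      rw [Finset.sum_mul]
      apply Finset.sum_le_sum
      intro i hi
      exact Nat.mul_le_mul_left _ (Finset.mem_range.1 hi).le
    have h2 : Nat.ble S (e * T) = true := by
      rw [Nat.ble_eq, ← he, ← hS, Nat.add_mul]
      exact Nat.add_le_add_right h1 _
    rw [typ, h2, cond_true, allBelow_iff] at h
    have h3 := h (c T) (Nat.lt_succ_of_le (hhi T (Nat.lt_succ_self T)))
    have h4 : (Nat.ble (c T) e && Nat.ble (c T * T) S && Nat.ble (lo T) (c T)) = true := by
      simp only [Bool.and_eq_true, Nat.ble_eq]
      exact ⟨⟨by omega, by omega⟩, hlo T (Nat.lt_succ_self T)⟩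
    rw [h4, cond_true] at h3
    have h5 := ih h3 (fun t ht => hlo t (Nat.lt_succ_of_lt ht))
      (fun t ht => hhi t (Nat.lt_succ_of_lt ht)) (by omega) (by omega)
    linarith

/-- Enumerate all count vectors `f` on values `< T` with total `r`, first moment `S` and second
moment `Q`, and check `leaf` on each of them. -/
def srch (leaf : List ℕ → Bool) : ℕ → ℕ → ℕ → ℕ → List ℕ → Bool
  | 0, r, S, Q, acc => bif Nat.beq r 0 && Nat.beq S 0 && Nat.beq Q 0 then leaf acc else true
  | t + 1, r, S, Q, acc =>
    bif Nat.ble Q (t * S) && Nat.ble S (t * r) && Nat.ble (S * S) (r * Q) then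
      allBelow (fun c =>
        bif Nat.ble (c * t) S && Nat.ble (c * t * t) Q then
          srch leaf t (r - c) (S - c * t) (Q - c * t * t) (c :: acc)
        else true) (r + 1)
    else true

theorem srch_sound {leaf : List ℕ → Bool} {T r S Q : ℕ} {acc : List ℕ}
    (h : srch leaf T r S Q acc = true) (f : ℕ → ℕ)
    (hr : ∑ t ∈ Finset.range T, f t = r) (hS : ∑ t ∈ Finset.range T, f t * t = S)
    (hQ : ∑ t ∈ Finset.range T, f t * t * t = Q) :
    leaf ((List.range T).map f ++ acc) = true := by
  induction T generalizing r S Q acc with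
  | zero =>
    simp only [Finset.range_zero, Finset.sum_empty] at hr hS hQ
    subst hr hS hQ
    simpa [srch] using h
  | succ T ih =>
    have h1 : Nat.ble Q (T * S) = true := by
      rw [Nat.ble_eq, ← hQ, ← hS, Finset.mul_sum]
      apply Finset.sum_le_sum
      intro i hi
      have := Nat.lt_succ_iff.1 (Finset.mem_range.1 hi)
      calc f i * i * i ≤ f i * i * T := Nat.mul_le_mul_left _ this
        _ = T * (f i * i) := by ring
    have h2 : Nat.ble S (T * r) = true := by
      rw [Nat.ble_eq, ← hS, ← hr, Finset.mul_sum]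
      apply Finset.sum_le_sum
      intro i hi
      have := Nat.lt_succ_iff.1 (Finset.mem_range.1 hi)
      calc f i * i ≤ f i * T := Nat.mul_le_mul_left _ this
        _ = T * f i := by ring
    have h3 : Nat.ble (S * S) (r * Q) = true := by
      rw [Nat.ble_eq, ← hS, ← hr, ← hQ, ← pow_two]
      have := Finset.sum_sq_le_sum_mul_sum_of_sq_le_mul (R := ℤ) (Finset.range (T + 1))
        (r := fun i => ((f i * i : ℕ) : ℤ)) (f := fun i => (f i : ℤ))
        (g := fun i => ((f i * i * i : ℕ) : ℤ))
        (fun i _ => by positivity) (fun i _ => by positivity)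
        (fun i _ => le_of_eq (by push_cast; ring))
      exact_mod_cast this
    rw [srch, h1, h2, h3] at h
    simp only [Bool.and_self, cond_true] at h
    rw [allBelow_iff] at h
    rw [Finset.sum_range_succ] at hr hS hQ
    have h4 := h (f T) (by omega)
    have h5 : (Nat.ble (f T * T) S && Nat.ble (f T * T * T) Q) = true := by
      simp only [Bool.and_eq_true, Nat.ble_eq]
      exact ⟨by omega, by omega⟩
    rw [h5, cond_true] at h4
    have h6 := ih h4 (by omega) (by omega) (by omega)
    rw [List.range_succ, List.map_append, List.append_assoc]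
    exact h6

/-- Equality test for lists of natural numbers. -/
def leq : List ℕ → List ℕ → Bool
  | [], [] => true
  | a :: l, b :: m => Nat.beq a b && leq l m
  | _, _ => false

theorem eq_of_leq {l m : List ℕ} (h : leq l m = true) : l = m := by
  induction l generalizing m with
  | nil => cases m <;> simp_all [leq]
  | cons a l ih =>
    cases m with
    | nil => simp [leq] at h
    | cons b m =>
      simp only [leq, Bool.and_eq_true, Nat.beq_eq] at h
      rw [h.1, ih h.2]

/-- Antisymmetric weights described by a list of triples. -/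
def wt : List (ℕ × ℕ × ℤ) → ℕ → ℕ → ℤ
  | [], _, _ => 0
  | (p, q, w) :: L, i, j =>
    (bif Nat.beq i p && Nat.beq j q then w else 0) - (bif Nat.beq i q && Nat.beq j p then w else 0)
      + wt L i j

theorem wt_antisymm (L : List (ℕ × ℕ × ℤ)) (i j : ℕ) : wt L i j = - wt L j i := by
  induction L with
  | nil => simp [wt]
  | cons x L ih =>
    obtain ⟨p, q, w⟩ := x
    have h1 : (Nat.beq i p && Nat.beq j q) = (Nat.beq j q && Nat.beq i p) := Bool.and_comm _ _
    have h2 : (Nat.beq i q && Nat.beq j p) = (Nat.beq j p && Nat.beq i q) := Bool.and_comm _ _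
    simp only [wt, h1, h2]
    rw [ih]
    ring

/-- Values given by a list of pairs. -/
def bt : List (ℕ × ℤ) → ℕ → ℤ
  | [], _ => 0
  | (p, b) :: L, i => (bif Nat.beq i p then b else 0) + bt L i

/-- A certificate: a count vector, antisymmetric weights, and bounds. -/
abbrev Cert : Type := List ℕ × List (ℕ × ℕ × ℤ) × List (ℕ × ℤ)

/-- Check of a certificate, where a vertex of class `t` is known to have between `lo t j` and
`hi t j` neighbours of class `j`. -/
def check2 (lo hi : ℕ → ℕ → ℕ) (s : ℕ) (C : Cert) : Bool :=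
  allBelow (fun t =>
    bif Nat.beq (C.1.getD t 0) 0 then true else
      (allBelow (fun j => decide (wt C.2.1 t j = 0)) 18 && decide (0 ≤ bt C.2.2 t)) ||
      typ (lo t) (hi t) (wt C.2.1 t) 18 (t + 1) (s + t) (bt C.2.2 t)) 18
  && decide (sumBelow (fun t => (C.1.getD t 0 : ℤ) * bt C.2.2 t) 18 < 0)

/-- The number of vertices of class `j` different from a given vertex of class `t`. -/
def others (a : List ℕ) (t j : ℕ) : ℕ := a.getD j 0 - (bif Nat.beq j t then 1 else 0)

/-- Check of a certificate. -/
def check (s : ℕ) (C : Cert) : Bool :=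
  check2 (fun _ _ => 0) (others C.1) s C

end Pool.Agent.Helper54.PseudoSearch
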